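import Pool.Agent.Q215.SPN.Stmts

set_option autoImplicit false

/-! Proof of `TaskCard` (helper95). -/

namespace Pool.Agent.Q215.SPN.CardF

theorem main : Pool.Agent.Q215.SPN.TaskCard := by
  intro m N i hm hmN hi
  have hN : 0 < N := lt_of_lt_of_le hm hmN
  have hmR : (0 : ℝ) < m := by exact_mod_cast hm
  have hNR : (0 : ℝ) < N := by exact_mod_cast hN
  have hiff : ∀ j : ℕ, j * m / N = i ↔ ((i : ℝ) * N / m ≤ j ∧ (j : ℝ) < ((i : ℝ) + 1) * N / m) := by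
    intro j
    rw [div_le_iff₀ hmR, lt_div_iff₀ hmR]
    have e1 : ((i : ℝ) * N ≤ j * m) ↔ i * N ≤ j * m := by exact_mod_cast Iff.rfl
    have e2 : ((j : ℝ) * m < ((i : ℝ) + 1) * N) ↔ j * m < (i + 1) * N := by exact_mod_cast Iff.rfl
    rw [e1, e2, ← Nat.le_div_iff_mul_le hN, ← Nat.div_lt_iff_lt_mul hN]
    omega
  have hxy : (i : ℝ) * N / m ≤ ((i : ℝ) + 1) * N / m := by
    apply div_le_div_of_nonneg_right _ hmR.le
    nlinarith
  have hyN : ((i : ℝ) + 1) * N / m ≤ N := by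
    rw [div_le_iff₀ hmR]
    have : (i : ℝ) + 1 ≤ m := by exact_mod_cast hi
    nlinarith
  have hcard : (Finset.univ.filter fun j : Fin N => (j : ℕ) * m / N = i).card =
      ⌈((i : ℝ) + 1) * N / m⌉₊ - ⌈(i : ℝ) * N / m⌉₊ := by
    rw [← Nat.card_Ico]
    refine Finset.card_bij (fun j _ => (j : ℕ)) ?_ ?_ ?_
    · intro j hj
      have := (hiff j).1 (Finset.mem_filter.1 hj).2
      exact Finset.mem_Ico.2 ⟨Nat.ceil_le.2 this.1, Nat.lt_ceil.2 this.2⟩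
    · intro j _ k _ h
      exact Fin.ext h
    · intro b hb
      obtain ⟨h1, h2⟩ := Finset.mem_Ico.1 hb
      have h3 := Nat.lt_ceil.1 h2
      have hbN : b < N := by
        have : (b : ℝ) < N := lt_of_lt_of_le h3 hyN
        exact_mod_cast this
      exact ⟨⟨b, hbN⟩, Finset.mem_filter.2 ⟨Finset.mem_univ _, (hiff b).2 ⟨Nat.ceil_le.1 h1, h3⟩⟩, rfl⟩
  have hle : ⌈(i : ℝ) * N / m⌉₊ ≤ ⌈((i : ℝ) + 1) * N / m⌉₊ := Nat.ceil_le_ceil hxy
  rw [hcard, Nat.cast_sub hle]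
  have hx0 : (0 : ℝ) ≤ (i : ℝ) * N / m := by positivity
  have hy0 : (0 : ℝ) ≤ ((i : ℝ) + 1) * N / m := by positivity
  have a1 := Nat.le_ceil ((i : ℝ) * N / m)
  have a2 := Nat.ceil_lt_add_one hx0
  have a3 := Nat.le_ceil (((i : ℝ) + 1) * N / m)
  have a4 := Nat.ceil_lt_add_one hy0
  have e : ((i : ℝ) + 1) * N / m = (i : ℝ) * N / m + (N : ℝ) / m := by ring
  constructor <;> linarith

end Pool.Agent.Q215.SPN.CardF
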