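import Pool.Agent.Q215.SPN.Stmts

/-! `TaskAeNoTie` (helper233) from `TaskTie`. -/

namespace Pool.Agent.Q215.SPN.TAeNoTie
open Pool.Agent.Q215.SPN
open Filter Topology Set MeasureTheory ProbabilityTheory TopologicalSpace
open scoped NNReal unitInterval

theorem rst_neg_aux (b : ℝ≥0 → ℝ) : rst (fun t => -b t) = -rst b := by
  classical
  unfold rst
  by_cases h : Continuous b
  · have h' : Continuous (fun t => -b t) := h.neg
    rw [dif_pos h, dif_pos h']
    ext t
    rfl
  · have h' : ¬ Continuous (fun t => -b t) := by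
      intro h'
      apply h
      have h2 : Continuous (fun t => -(-b t)) := h'.neg
      simpa only [neg_neg] using h2
    rw [dif_neg h, dif_neg h']
    simp

theorem image_neg_aux (w : C(I, ℝ)) (s : Set I) : (-w) '' s = -(w '' s) := by
  ext x
  constructor
  · rintro ⟨t, ht, rfl⟩
    exact ⟨t, ht, by simp⟩
  · rintro ⟨t, ht, hx⟩
    exact ⟨t, ht, by
      have : x = -(w t) := by rw [hx]; ring
      rw [this]; rfl⟩

theorem main (hT : TaskTie) : TaskAeNoTie := by
  intro Ω _ P B hB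
  have hcount : Countable {a : I // ∃ q : ℚ, (a : ℝ) = q} := by
    have hf : ∀ a : {a : I // ∃ q : ℚ, (a : ℝ) = q}, ((a.1 : I) : ℝ) = (a.2.choose : ℚ) := fun a => a.2.choose_spec
    refine Function.Injective.countable (f := fun a : {a : I // ∃ q : ℚ, (a : ℝ) = q} => a.2.choose) ?_
    intro a b hab
    apply Subtype.ext
    apply Subtype.ext
    rw [hf a, hf b]
    exact_mod_cast hab
  have key : ∀ a b c d : {a : I // ∃ q : ℚ, (a : ℝ) = q}, ∀ᵐ ω ∂P, a.1 < b.1 → b.1 < c.1 → c.1 < d.1 →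
      sSup (rst (fun t => B t ω) '' Icc a.1 b.1) ≠ sInf (rst (fun t => B t ω) '' Icc c.1 d.1) ∧
      sInf (rst (fun t => B t ω) '' Icc a.1 b.1) ≠ sSup (rst (fun t => B t ω) '' Icc c.1 d.1) := by
    intro a b c d
    by_cases hab : a.1 < b.1
    swap
    · exact Filter.Eventually.of_forall fun ω h => absurd h hab
    by_cases hbc : b.1 < c.1
    swap
    · exact Filter.Eventually.of_forall fun ω _ h => absurd h hbc
    by_cases hcd : c.1 < d.1
    swap
    · exact Filter.Eventually.of_forall fun ω _ _ h => absurd h hcd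
    have h1 := hT P B hB a.1 b.1 c.1 d.1 hab hbc hcd
    have h2 := hT P (-B) hB.neg a.1 b.1 c.1 d.1 hab hbc hcd
    filter_upwards [h1, h2] with ω h1 h2 _ _ _
    refine ⟨h1, ?_⟩
    intro h
    apply h2
    have e : rst (fun t => (-B) t ω) = -rst (fun t => B t ω) := rst_neg_aux (fun t => B t ω)
    rw [e, image_neg_aux, image_neg_aux, Real.sSup_neg, Real.sInf_neg, h]
  have key2 : ∀ᵐ ω ∂P, ∀ a b c d : {a : I // ∃ q : ℚ, (a : ℝ) = q}, a.1 < b.1 → b.1 < c.1 → c.1 < d.1 →
      sSup (rst (fun t => B t ω) '' Icc a.1 b.1) ≠ sInf (rst (fun t => B t ω) '' Icc c.1 d.1) ∧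
      sInf (rst (fun t => B t ω) '' Icc a.1 b.1) ≠ sSup (rst (fun t => B t ω) '' Icc c.1 d.1) := by
    rw [ae_all_iff]; intro a
    rw [ae_all_iff]; intro b
    rw [ae_all_iff]; intro c
    rw [ae_all_iff]; intro d
    exact key a b c d
  filter_upwards [key2] with ω h a b c d ha hb hc hd hab hbc hcd
  exact h ⟨a, ha⟩ ⟨b, hb⟩ ⟨c, hc⟩ ⟨d, hd⟩ hab hbc hcd

end Pool.Agent.Q215.SPN.TAeNoTie
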