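import Pool.Agent.Q215.SPN.Stmts

namespace Pool.Agent.Q215.SPN.TBside

open Filter Topology Set MeasureTheory ProbabilityTheory TopologicalSpace
open scoped NNReal unitInterval
open Pool.Agent.Q215.SPN

theorem main (hD : TaskPLdist) (hA : TaskPLapprox) (hI : TaskIncLaw) :
    Pool.Agent.Q215.SPN.TaskBside := by
  intro Ω _ P B hB H L M hL hM
  have hprob : IsProbabilityMeasure P := hB.toIsPreBrownianReal.isGaussianProcess.isProbabilityMeasure
  have hL0 : ∀ v w, |H v - H w| ≤ |L| * dist v w := fun v w =>
    (hL v w).trans (mul_le_mul_of_nonneg_right (le_abs_self L) dist_nonneg)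
  have hHc : Continuous H := by
    have : LipschitzWith (Real.toNNReal |L|) H := by
      apply LipschitzWith.of_dist_le_mul
      intro v w
      rw [Real.dist_eq, Real.coe_toNNReal _ (abs_nonneg L)]
      exact hL0 v w
    exact this.continuous
  have hPLc : ∀ m : ℕ, Continuous (PL m) := by
    intro m
    rw [continuous_iff_continuousAt]
    intro x
    rw [ContinuousAt, tendsto_iff_dist_tendsto_zero]
    have h1 : Tendsto (fun y : Fin m → ℝ => ∑ i, |y i - x i|) (𝓝 x) (𝓝 0) := by
      have h2 : Continuous (fun y : Fin m → ℝ => ∑ i, |y i - x i|) := by fun_prop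
      have h3 := h2.tendsto x
      simpa using h3
    exact squeeze_zero (fun _ => dist_nonneg) (fun y => hD m y x) h1
  have hmeas : ∀ m : ℕ, 0 < m →
      AEStronglyMeasurable (fun ω => H (PL m (inc m (fun t => B t ω)))) P := by
    intro m hm
    exact ((hHc.comp (hPLc m)).measurable.comp_aemeasurable (hI P B hB m hm).1).aestronglyMeasurable
  have hae : ∀ᵐ ω ∂P, Tendsto (fun m : ℕ => H (PL m (inc m (fun t => B t ω)))) atTop
      (𝓝 (H (rst (fun t => B t ω)))) := by
    filter_upwards [hB.cont, hB.toIsPreBrownianReal.eval_zero_ae_eq_zero] with ω h1 h2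
    exact (hHc.tendsto _).comp (hA (fun t => B t ω) h1 h2)
  refine ⟨?_, ?_⟩
  · refine aestronglyMeasurable_of_tendsto_ae atTop (fun m => hmeas (m + 1) (Nat.succ_pos m)) ?_
    filter_upwards [hae] with ω hω
    exact hω.comp (tendsto_add_atTop_nat 1)
  · have hcong : ∀ᶠ m : ℕ in atTop, ∫ ω, H (PL m (inc m (fun t => B t ω))) ∂P =
        ∫ x, H (PL m x) ∂(Measure.pi fun _ : Fin m => gaussianReal 0 (1 / (m : ℝ≥0))) := by
      filter_upwards [eventually_gt_atTop 0] with m hm
      obtain ⟨h1, h2⟩ := hI P B hB m hm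
      rw [← h2]
      exact (integral_map h1 (hHc.comp (hPLc m)).aestronglyMeasurable).symm
    refine Tendsto.congr' hcong ?_
    rw [← tendsto_add_atTop_iff_nat 1]
    refine tendsto_integral_of_dominated_convergence (fun _ => M)
      (fun m => hmeas (m + 1) (Nat.succ_pos m)) (integrable_const M) (fun m => ?_) ?_
    · exact Eventually.of_forall fun ω => by rw [Real.norm_eq_abs]; exact hM _
    · filter_upwards [hae] with ω hω
      exact hω.comp (tendsto_add_atTop_nat 1)

end Pool.Agent.Q215.SPN.TBside
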