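import Pool.Agent.Q215.SPN.Stmts

namespace Pool.Agent.Q215.SPN
open Filter Topology Set MeasureTheory ProbabilityTheory TopologicalSpace
open scoped NNReal unitInterval ENNReal RealInnerProductSpace

noncomputable section

namespace CLTaux

/-- the law of the block sums on the Euclidean space -/
def nu (m N : ℕ) : Measure (EuclideanSpace ℝ (Fin m)) :=
  ((2 : ℝ≥0∞) ^ N)⁻¹ • ∑ e : Fin N → Bool, Measure.dirac (WithLp.toLp 2 (D m N e))

instance (m N : ℕ) : IsProbabilityMeasure (nu m N) := by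
  constructor
  unfold nu
  rw [Measure.smul_apply, Measure.finsetSum_apply]
  simp only [measure_univ, Finset.sum_const, Finset.card_univ, Fintype.card_pi, Fintype.card_bool,
    Finset.prod_const, Fintype.card_fin, nsmul_eq_mul, mul_one, smul_eq_mul]
  push_cast
  exact ENNReal.inv_mul_cancel (by simp) (by simp)

theorem integral_nu {G : Type*} [NormedAddCommGroup G] [NormedSpace ℝ G] [CompleteSpace G]
    (m N : ℕ) (f : EuclideanSpace ℝ (Fin m) → G) :
    ∫ x, f x ∂(nu m N) = ((2 : ℝ) ^ N)⁻¹ • ∑ e : Fin N → Bool, f (WithLp.toLp 2 (D m N e)) := by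
  unfold nu
  rw [integral_smul_measure, integral_finsetSum_measure (fun e _ => integrable_dirac (by simp))]
  simp only [integral_dirac]
  congr 1
  simp

theorem cf_nu (hC : TaskCos) (m N : ℕ) (hm : 0 < m) (hN : m ≤ N) (t : EuclideanSpace ℝ (Fin m)) :
    charFun (nu m N) t = ∏ i : Fin m, ((Real.cos (t i / √N) ^
      (Finset.univ.filter fun j : Fin N => (j : ℕ) * m / N = (i : ℕ)).card : ℝ) : ℂ) := by
  rw [charFun_apply, integral_nu, ← hC m N (fun i => t i) hm hN, Complex.real_smul, div_eq_inv_mul]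
  push_cast
  congr 1
  refine Finset.sum_congr rfl fun e _ => ?_
  congr 1
  rw [mul_comm]
  congr 1
  rw [PiLp.inner_apply]
  push_cast
  refine Finset.sum_congr rfl fun i _ => ?_
  simp

def mu0 (m : ℕ) : Measure (EuclideanSpace ℝ (Fin m)) :=
  (Measure.pi fun _ : Fin m => gaussianReal 0 (1 / (m : ℝ≥0))).map (WithLp.toLp 2)

instance (m : ℕ) : IsProbabilityMeasure (mu0 m) := by
  unfold mu0
  exact Measure.isProbabilityMeasure_map (MeasurableEquiv.toLp 2 (Fin m → ℝ)).measurable.aemeasurable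

theorem cf_mu0 (m : ℕ) (t : EuclideanSpace ℝ (Fin m)) :
    charFun (mu0 m) t = ∏ i : Fin m, ((Real.exp (-(t i) ^ 2 / (2 * m)) : ℝ) : ℂ) := by
  unfold mu0
  rw [charFun_pi]
  refine Finset.prod_congr rfl fun i _ => ?_
  rw [charFun_gaussianReal]
  push_cast
  congr 1
  simp only [mul_zero, zero_mul, zero_sub]
  rcases Nat.eq_zero_or_pos m with h | h
  · subst h
    exact i.elim0
  · have : (m : ℂ) ≠ 0 := by exact_mod_cast h.ne'
    field_simp

def pnu (m N : ℕ) : ProbabilityMeasure (EuclideanSpace ℝ (Fin m)) := ⟨nu m N, inferInstance⟩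

def pmu0 (m : ℕ) : ProbabilityMeasure (EuclideanSpace ℝ (Fin m)) := ⟨mu0 m, inferInstance⟩

end CLTaux

open CLTaux in
theorem taskCLT (hC : TaskCos) (hL : TaskCosLim) : TaskCLT := by
  intro m hm h hcont hbd
  obtain ⟨M, hM⟩ := hbd
  have hconv : Tendsto (fun N : ℕ => pnu m N) atTop (𝓝 (pmu0 m)) := by
    refine ProbabilityMeasure.tendsto_of_tendsto_charFun fun t => ?_
    show Tendsto (fun N : ℕ => charFun (nu m N) t) atTop (𝓝 (charFun (mu0 m) t))
    rw [cf_mu0]
    have h1 : Tendsto (fun N : ℕ => ∏ i : Fin m, ((Real.cos (t i / √N) ^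
      (Finset.univ.filter fun j : Fin N => (j : ℕ) * m / N = (i : ℕ)).card : ℝ) : ℂ)) atTop
      (𝓝 (∏ i : Fin m, ((Real.exp (-(t i) ^ 2 / (2 * m)) : ℝ) : ℂ))) := by
      refine tendsto_finsetProd _ fun i _ => ?_
      exact (Complex.continuous_ofReal.tendsto _).comp (hL m i (t i) hm i.2)
    refine h1.congr' ?_
    filter_upwards [eventually_ge_atTop m] with N hN
    exact (cf_nu hC m N hm hN t).symm
  rw [ProbabilityMeasure.tendsto_iff_forall_integral_tendsto] at hconv
  have hc2 : Continuous fun x : EuclideanSpace ℝ (Fin m) => h x.ofLp :=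
    hcont.comp (PiLp.continuous_ofLp 2 _)
  have h2 := hconv (BoundedContinuousFunction.ofNormedAddCommGroup
    (fun x : EuclideanSpace ℝ (Fin m) => h x.ofLp) hc2 M (fun x => by
      rw [Real.norm_eq_abs]
      exact hM _))
  have e1 : ∫ x, h x.ofLp ∂(mu0 m) =
      ∫ x, h x ∂(Measure.pi fun _ : Fin m => gaussianReal 0 (1 / (m : ℝ≥0))) := by
    unfold mu0
    rw [← MeasurableEquiv.coe_toLp, integral_map_equiv]
    rfl
  have e2 : ∀ N, ∫ x, h x.ofLp ∂(nu m N) = EN N (fun e => h (D m N e)) := by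
    intro N
    rw [integral_nu, EN, smul_eq_mul, div_eq_inv_mul]
  have h3 : Tendsto (fun N : ℕ => ∫ x, h x.ofLp ∂(nu m N)) atTop
      (𝓝 (∫ x, h x.ofLp ∂(mu0 m))) := h2
  rw [e1] at h3
  exact h3.congr e2

end

end Pool.Agent.Q215.SPN
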