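import Pool.Agent.Q215.SPN.Stmts

set_option autoImplicit false

namespace Pool.Agent.Q215.SPN.TCompact

open Filter Topology Set
open scoped NNReal unitInterval
open Pool.Agent.Q215.SPN

theorem main : Pool.Agent.Q215.SPN.TaskCompact := by
  intro w
  constructor
  · set φ : I × I → I := fun p => projIcc (0 : ℝ) 1 zero_le_one ((p.2 : ℝ) - (p.1 : ℝ)) with hφ
    have hφc : Continuous φ := by
      apply continuous_projIcc.comp
      fun_prop
    have hS : IsCompact {p : I × I | p.1 ≤ p.2 ∧ w p.1 = w p.2} := by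
      have h1 : IsClosed {p : I × I | p.1 ≤ p.2} := isClosed_le continuous_fst continuous_snd
      have h2 : IsClosed {p : I × I | w p.1 = w p.2} :=
        isClosed_eq (w.continuous.comp continuous_fst) (w.continuous.comp continuous_snd)
      exact (h1.inter h2).isCompact
    have himg : spanSet w = φ '' {p : I × I | p.1 ≤ p.2 ∧ w p.1 = w p.2} := by
      have hval : ∀ s t : I, s ≤ t → ((φ (s, t) : I) : ℝ) = (t : ℝ) - (s : ℝ) := by
        intro s t hst
        have h1 : (s : ℝ) ≤ t := hst
        have h2 : ((t : ℝ) - (s : ℝ)) ∈ Icc (0 : ℝ) 1 :=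
          ⟨by linarith, by linarith [s.2.1, t.2.2]⟩
        simp only [hφ]
        rw [projIcc_of_mem zero_le_one h2]
      ext x
      constructor
      · rintro ⟨s, t, hst, hw, hx⟩
        refine ⟨(s, t), ⟨hst, hw⟩, ?_⟩
        apply Subtype.ext
        rw [hval s t hst, hx]
      · rintro ⟨⟨s, t⟩, ⟨hst, hw⟩, rfl⟩
        exact ⟨s, t, hst, hw, hval s t hst⟩
    rw [himg]
    exact hS.image hφc
  · exact ⟨0, 0, 0, le_rfl, rfl, by simp⟩

end Pool.Agent.Q215.SPN.TCompact
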