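import Pool.Agent.Q215.SPN.Stmts

set_option autoImplicit false

namespace Pool.Agent.Q215.SPN.TCompare
open Filter Topology Set MeasureTheory ProbabilityTheory TopologicalSpace
open scoped NNReal unitInterval
open Pool.Agent.Q215.SPN

open Classical in
theorem main (hclose : TaskClose) : Pool.Agent.Q215.SPN.TaskCompare := by
  intro H L M hL hM hLip hbd m N lam hm hmN hlam
  have hcl := hclose m N lam hm hmN hlam
  set c : ℝ := 2 * lam + 1 / √N with hc
  have hc0 : 0 ≤ c := by positivity
  have h2 : (0 : ℝ) < 2 ^ N := by positivity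
  unfold EN at hcl ⊢
  rw [← sub_div, ← Finset.sum_sub_distrib, abs_div, abs_of_pos h2, div_le_iff₀ h2]
  rw [div_le_iff₀ h2] at hcl
  have hpt : ∀ e : Fin N → Bool, |H (W N e) - H (PL m (D m N e))| ≤
      L * c + 2 * M * (if c < dist (W N e) (PL m (D m N e)) then 1 else 0) := by
    intro e
    split_ifs with h
    · have h3 : |H (W N e) - H (PL m (D m N e))| ≤ |H (W N e)| + |H (PL m (D m N e))| := abs_sub _ _
      have h4 := hbd (W N e)
      have h5 := hbd (PL m (D m N e))
      have h6 : 0 ≤ L * c := mul_nonneg hL hc0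
      linarith
    · have h3 := hLip (W N e) (PL m (D m N e))
      have h4 : L * dist (W N e) (PL m (D m N e)) ≤ L * c :=
        mul_le_mul_of_nonneg_left (not_lt.1 h) hL
      linarith
  calc |∑ e : Fin N → Bool, (H (W N e) - H (PL m (D m N e)))|
      ≤ ∑ e : Fin N → Bool, |H (W N e) - H (PL m (D m N e))| := Finset.abs_sum_le_sum_abs _ _
    _ ≤ ∑ e : Fin N → Bool,
        (L * c + 2 * M * (if c < dist (W N e) (PL m (D m N e)) then 1 else 0)) :=
        Finset.sum_le_sum fun e _ => hpt e
    _ = 2 ^ N * (L * c) +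
        2 * M * ∑ e : Fin N → Bool, (if c < dist (W N e) (PL m (D m N e)) then 1 else 0) := by
        rw [Finset.sum_add_distrib, Finset.sum_const, Finset.card_univ,
          Fintype.card_fun, Fintype.card_bool, Fintype.card_fin, nsmul_eq_mul, Finset.mul_sum]
        push_cast
        rfl
    _ ≤ 2 ^ N * (L * c) + 2 * M * (12 / (m * lam ^ 4) * 2 ^ N) := by
        have := mul_le_mul_of_nonneg_left hcl (by positivity : (0 : ℝ) ≤ 2 * M)
        linarith
    _ = (L * c + 2 * M * (12 / (m * lam ^ 4))) * 2 ^ N := by ring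

end Pool.Agent.Q215.SPN.TCompare
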