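import Mathlib

/-! Blueprint (helper215) for MP_52e894_pr: the span set of simple random walk converges in law to the span set of
Brownian motion (full answer YES).  Every `TaskX` below is an independent lemma. -/

namespace Pool.Agent.Q215.SPN
open Filter Topology Set MeasureTheory ProbabilityTheory TopologicalSpace
open scoped NNReal unitInterval

noncomputable section

/-- the space of nonempty compact subsets of `[0,1]` with the Hausdorff metric -/
abbrev K := NonemptyCompacts I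

open Classical in
/-- a subset of `[0,1]` as an element of `K` (junk value `⊤` if it is empty or not compact) -/
def toK (A : Set I) : K := if h : IsCompact A ∧ A.Nonempty then ⟨⟨A, h.1⟩, h.2⟩ else ⊤

/-- the span set of a continuous path -/
def spanSet (w : C(I, ℝ)) : Set I := {x | ∃ s t : I, s ≤ t ∧ w s = w t ∧ (x : ℝ) = t - s}

/-- each point of `A` is within `ε` of a point of `C` -/
def Near (ε : ℝ) (A C : Set I) : Prop := ∀ x ∈ A, ∃ y ∈ C, |(x : ℝ) - y| ≤ ε

/-- the maximum over a rational interval never equals the minimum over a later rational interval, and conversely -/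
def NoTie (w : C(I, ℝ)) : Prop := ∀ a b c d : I, (∃ q : ℚ, (a : ℝ) = q) → (∃ q : ℚ, (b : ℝ) = q) →
  (∃ q : ℚ, (c : ℝ) = q) → (∃ q : ℚ, (d : ℝ) = q) → a < b → b < c → c < d →
  sSup (w '' Icc a b) ≠ sInf (w '' Icc c d) ∧ sInf (w '' Icc a b) ≠ sSup (w '' Icc c d)

def clamp (y : ℝ) : ℝ := max 0 (min 1 y)

/-- the piecewise linear path with `x i` as increment on `[i/m, (i+1)/m]` -/
def PL (m : ℕ) (x : Fin m → ℝ) : C(I, ℝ) :=
  ⟨fun t => ∑ i : Fin m, x i * clamp (m * (t : ℝ) - i), by unfold clamp; fun_prop⟩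

def sg (b : Bool) : ℝ := if b then 1 else -1

/-- the rescaled random walk path with the steps `e` -/
def W (N : ℕ) (e : Fin N → Bool) : C(I, ℝ) := PL N (fun i => sg (e i) / √N)

/-- expectation over `N` independent signs -/
def EN (N : ℕ) (g : (Fin N → Bool) → ℝ) : ℝ := (∑ e : Fin N → Bool, g e) / 2 ^ N

/-- the walk with the steps `x` at the time `k` -/
def walk (x : ℕ → ℝ) (k : ℕ) : ℝ := ∑ i ∈ Finset.range k, x i

/-- the rescaled span set `(1/N) Sp` of the walk with the steps `x` -/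
def rwSpan (N : ℕ) (x : ℕ → ℝ) : Set I :=
  {y | ∃ l k : ℕ, l ≤ k ∧ k ≤ N ∧ walk x k = walk x l ∧ (y : ℝ) = ((k : ℝ) - l) / N}

/-- extension of a sign vector by zero -/
def ext (N : ℕ) (e : Fin N → Bool) (i : ℕ) : ℝ := if h : i < N then sg (e ⟨i, h⟩) else 0

/-- the sum of the signs in the block `i` (of `m` blocks), divided by `√N` -/
def D (m N : ℕ) (e : Fin N → Bool) (i : Fin m) : ℝ :=
  (∑ j : Fin N, if (j : ℕ) * m / N = i then sg (e j) else 0) / √N

/-- the increments of a path on the grid of mesh `1/m` (for `B : ℝ≥0 → ℝ`) -/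
def inc (m : ℕ) (b : ℝ≥0 → ℝ) (i : Fin m) : ℝ :=
  b (((i : ℕ) + 1 : ℝ≥0) / m) - b (((i : ℕ) : ℝ≥0) / m)

open Classical in
/-- a continuous path restricted to `[0,1]` (`0` if not continuous) -/
def rst (b : ℝ≥0 → ℝ) : C(I, ℝ) :=
  if h : Continuous b then ⟨fun t => b ⟨t, t.2.1⟩, h.comp (by fun_prop)⟩ else 0

/-! ### deterministic part -/

/-- `spanSet w` is compact (image of a closed subset of `I × I`) and contains `0`. -/
def TaskCompact : Prop := ∀ w : C(I, ℝ), IsCompact (spanSet w) ∧ (spanSet w).Nonempty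

/-- `rwSpan` is finite and contains `0`. -/
def TaskRwCompact : Prop := ∀ (N : ℕ) (x : ℕ → ℝ), IsCompact (rwSpan N x) ∧ (rwSpan N x).Nonempty

/-- uniform continuity of `F` on the compact metric space `K` (`CompactSpace.uniformContinuous_of_continuous`) and
`Metric.hausdorffDist_le_of_mem_dist`, `NonemptyCompacts.dist_eq`. -/
def TaskUnif : Prop := ∀ F : K → ℝ, Continuous F → ∀ ε > 0, ∃ η > 0, ∀ A C : Set I,
  IsCompact A → A.Nonempty → IsCompact C → C.Nonempty → Near η A C → Near η C A →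
  |F (toK A) - F (toK C)| ≤ ε

/-- upper semicontinuity.  Hint: if not, there are `v_n → w`, `s_n ≤ t_n`, `v_n s_n = v_n t_n` with `t_n - s_n` not near
`spanSet w`; take a convergent subsequence.  (Or compactness of `{(s,t) | s ≤ t, t - s far from spanSet w}`, on which
`|w s - w t|` is at least some `c > 0`; take `δ < c / 2`.) -/
def TaskUpper : Prop := ∀ w : C(I, ℝ), ∀ ε > 0, ∃ δ > 0, ∀ v : C(I, ℝ), dist v w ≤ δ →
  Near ε (spanSet v) (spanSet w)

/-- lower semicontinuity at one point.  Hint: `x = t - s`, `w s = w t`; if `s = t` then `x = 0` is in every span set.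
Otherwise take rational `a < b < c < d` with `s ∈ [a,b]`, `t ∈ [c,d]`, `b - a, d - c ≤ ε / 2`.  By `NoTie`,
`max_[a,b] w > min_[c,d] w` and `min_[a,b] w < max_[c,d] w`; both persist for `v` near `w`, so `v t' - v s'` has both
signs on the connected set `[a,b] × [c,d]`, hence a zero. -/
def TaskLower1 : Prop := ∀ w : C(I, ℝ), NoTie w → ∀ x ∈ spanSet w, ∀ ε > 0, ∃ δ > 0, ∀ v : C(I, ℝ),
  dist v w ≤ δ → ∃ y ∈ spanSet v, |(x : ℝ) - y| ≤ ε

/-- lower semicontinuity, from TaskLower1 and TaskCompact (finite `ε/2` net of `spanSet w`). -/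
def TaskLower : Prop := ∀ w : C(I, ℝ), NoTie w → ∀ ε > 0, ∃ δ > 0, ∀ v : C(I, ℝ), dist v w ≤ δ →
  Near ε (spanSet w) (spanSet v)

/-- values of the walk path: for `k ≤ N`, `W N e (k / N) = walk (ext N e) k / √N`; it is affine between. -/
def TaskGrid : Prop := ∀ (N : ℕ) (e : Fin N → Bool) (t : I) (k : ℕ), k < N → (k : ℝ) ≤ N * (t : ℝ) →
  N * (t : ℝ) ≤ k + 1 →
  W N e t = (walk (ext N e) k + (N * (t : ℝ) - k) * ext N e k) / √N

/-- the discrete span set is contained in the span set of the path (from TaskGrid). -/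
def TaskRw1 : Prop := ∀ (N : ℕ) (e : Fin N → Bool), 0 < N → rwSpan N (ext N e) ⊆ spanSet (W N e)

/-- each span of the path is within `2/N` of a span of the walk (from TaskGrid).  Hint: let `W s = W t`,
`s ∈ [l/N, (l+1)/N]`, `t ∈ [k/N, (k+1)/N]`, `l ≤ k`; the walk moves by `±1` on both intervals and the values have a
common point `v √N`, in `[j, j+1]` for both, so one end point of the first interval and one of the second have the same
value `j` (or `j+1`). -/
def TaskRw2 : Prop := ∀ (N : ℕ) (e : Fin N → Bool), 0 < N → Near (2 / N) (spanSet (W N e)) (rwSpan N (ext N e))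

/-! ### piecewise linear approximation -/

/-- `PL` is Lipschitz in the increments. -/
def TaskPLdist : Prop := ∀ (m : ℕ) (x y : Fin m → ℝ), dist (PL m x) (PL m y) ≤ ∑ i, |x i - y i|

/-- approximation of a path with `b 0 = 0` (uniform continuity on `[0,1]`). -/
def TaskPLapprox : Prop := ∀ b : ℝ≥0 → ℝ, Continuous b → b 0 = 0 →
  Tendsto (fun m : ℕ => PL m (inc m b)) atTop (𝓝 (rst b))

/-- comparison of the walk path with its block path.  Hint: for `i/m ≤ t ≤ (i+1)/m` both are equal to the sum over the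
blocks before `i`, up to `λ` (block path: `θ D_i`) and up to `λ + 1/√N` (walk path). -/
def TaskBlocks : Prop := ∀ (m N : ℕ) (e : Fin N → Bool) (lam : ℝ), 0 < m → 0 < N → 0 ≤ lam →
  (∀ i : ℕ, ∀ k ≤ N, |∑ j : Fin N, if ((j : ℕ) * m / N = i ∧ (j : ℕ) < k) then sg (e j) else 0| ≤ lam * √N) →
  dist (W N e) (PL m (D m N e)) ≤ 2 * lam + 1 / √N

/-- the number of `j < N` in a block. -/
def TaskCard : Prop := ∀ (m N i : ℕ), 0 < m → m ≤ N → i < m →
  ((N : ℝ) / m - 1 ≤ (Finset.univ.filter fun j : Fin N => (j : ℕ) * m / N = i).card) ∧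
  ((Finset.univ.filter fun j : Fin N => (j : ℕ) * m / N = i).card : ℝ) ≤ (N : ℝ) / m + 1

/-- fourth moment: `E (∑_{j ∈ J} e_j)^4 = 3 n^2 - 2 n ≤ 3 n^2`, `n = |J|` (induction on `J`). -/
def TaskFourth : Prop := ∀ (N : ℕ) (J : Finset (Fin N)),
  EN N (fun e => (∑ j ∈ J, sg (e j)) ^ 4) ≤ 3 * (J.card : ℝ) ^ 2

/-- maximal inequality.  Hint: `E [S_J^4 ; first k with |S_k| > a is k0] ≥ a^4 P(first = k0)`, since given the signs
before `k0`, `E (x + S')^4 ≥ x^4` (flip all later signs: `(x+s)^4 + (x-s)^4 ≥ 2 x^4`), then TaskFourth. -/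
def TaskMaxIneq : Prop := ∀ (N : ℕ) (J : Finset (Fin N)) (a : ℝ), 0 < a →
  EN N (fun e => if ∃ k ≤ N, a < |∑ j ∈ J, if (j : ℕ) < k then sg (e j) else 0| then 1 else 0) ≤
    3 * (J.card : ℝ) ^ 2 / a ^ 4

/-- from TaskBlocks, TaskCard, TaskMaxIneq (union bound over the `m` blocks): `3 (N/m+1)^2 ≤ 12 N^2/m^2`. -/
def TaskClose : Prop := ∀ (m N : ℕ) (lam : ℝ), 0 < m → m ≤ N → 0 < lam →
  EN N (fun e => if 2 * lam + 1 / √N < dist (W N e) (PL m (D m N e)) then 1 else 0) ≤ 12 / (m * lam ^ 4)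

/-- from TaskClose: comparison of expectations. -/
def TaskCompare : Prop := ∀ (H : C(I, ℝ) → ℝ) (L M : ℝ), 0 ≤ L → 0 ≤ M → (∀ v w, |H v - H w| ≤ L * dist v w) →
  (∀ w, |H w| ≤ M) → ∀ (m N : ℕ) (lam : ℝ), 0 < m → m ≤ N → 0 < lam →
  |EN N (fun e => H (W N e)) - EN N (fun e => H (PL m (D m N e)))| ≤
    L * (2 * lam + 1 / √N) + 2 * M * (12 / (m * lam ^ 4))

/-- the characteristic function of the block sums: product over `j` of `cos (y_{block j} / √N)`. -/
def TaskCos : Prop := ∀ (m N : ℕ) (y : Fin m → ℝ), 0 < m → m ≤ N →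
  (∑ e : Fin N → Bool, Complex.exp (Complex.I * ((∑ i, y i * D m N e i : ℝ) : ℂ))) / 2 ^ N =
    ∏ i : Fin m, ((Real.cos (y i / √N) ^
      (Finset.univ.filter fun j : Fin N => (j : ℕ) * m / N = (i : ℕ)).card : ℝ) : ℂ)

/-- limit of the powers of cosines (from TaskCard). -/
def TaskCosLim : Prop := ∀ (m i : ℕ) (y : ℝ), 0 < m → i < m →
  Tendsto (fun N : ℕ => Real.cos (y / √N) ^ (Finset.univ.filter fun j : Fin N => (j : ℕ) * m / N = i).card) atTop
    (𝓝 (Real.exp (-y ^ 2 / (2 * m))))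

/-- the central limit theorem for the blocks, from TaskCos, TaskCosLim by `ProbabilityMeasure.tendsto_of_tendsto_charFun`
(on `EuclideanSpace ℝ (Fin m)`, or by any other way). -/
def TaskCLT : Prop := ∀ (m : ℕ), 0 < m → ∀ h : (Fin m → ℝ) → ℝ, Continuous h → (∃ M, ∀ x, |h x| ≤ M) →
  Tendsto (fun N : ℕ => EN N (fun e => h (D m N e))) atTop
    (𝓝 (∫ x, h x ∂(Measure.pi fun _ : Fin m => gaussianReal 0 (1 / (m : ℝ≥0)))))

/-! ### Brownian motion -/

/-- law of the increments: `IsPreBrownianReal.hasIndepIncrements`, `IsPreBrownianReal.hasLaw_sub`,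
`iIndepFun_iff_map_fun_eq_pi_map`. -/
def TaskIncLaw : Prop := ∀ {Ω : Type} [MeasurableSpace Ω] (P : Measure Ω) (B : ℝ≥0 → Ω → ℝ),
  IsBrownianReal B P → ∀ m : ℕ, 0 < m → AEMeasurable (fun ω => inc m (fun t => B t ω)) P ∧
    P.map (fun ω => inc m (fun t => B t ω)) = Measure.pi fun _ : Fin m => gaussianReal 0 (1 / (m : ℝ≥0))

/-- from TaskPLdist, TaskPLapprox, TaskIncLaw (dominated convergence). -/
def TaskBside : Prop := ∀ {Ω : Type} [MeasurableSpace Ω] (P : Measure Ω) (B : ℝ≥0 → Ω → ℝ),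
  IsBrownianReal B P → ∀ (H : C(I, ℝ) → ℝ) (L M : ℝ), (∀ v w, |H v - H w| ≤ L * dist v w) → (∀ w, |H w| ≤ M) →
  AEStronglyMeasurable (fun ω => H (rst (fun t => B t ω))) P ∧
  Tendsto (fun m : ℕ => ∫ x, H (PL m x) ∂(Measure.pi fun _ : Fin m => gaussianReal 0 (1 / (m : ℝ≥0)))) atTop
    (𝓝 (∫ ω, H (rst (fun t => B t ω)) ∂P))

/-- Donsker's theorem for bounded Lipschitz functionals, from TaskCompare, TaskPLdist, TaskCLT, TaskBside. -/
def TaskDonsker : Prop := ∀ {Ω : Type} [MeasurableSpace Ω] (P : Measure Ω) (B : ℝ≥0 → Ω → ℝ),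
  IsBrownianReal B P → ∀ (H : C(I, ℝ) → ℝ) (L M : ℝ), 0 ≤ L → (∀ v w, |H v - H w| ≤ L * dist v w) →
  (∀ w, |H w| ≤ M) →
  Tendsto (fun N : ℕ => EN N (fun e => H (W N e))) atTop (𝓝 (∫ ω, H (rst (fun t => B t ω)) ∂P))

/-- a Gaussian variable plus an independent one has a density bounded by `1/√(2πv)`. -/
def TaskGauss : Prop := ∀ {Ω : Type} [MeasurableSpace Ω] (P : Measure Ω) [IsProbabilityMeasure P] (G Z : Ω → ℝ)
  (v : ℝ≥0), 0 < v → AEMeasurable G P → AEMeasurable Z P → P.map G = gaussianReal 0 v → IndepFun G Z P →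
  ∀ δ > 0, P {ω | |G ω + Z ω| < δ} ≤ ENNReal.ofReal (2 * δ / √(2 * Real.pi * v))

/-- no tie between a maximum and a later minimum.  Hint: `max_[a,b] B - min_[c,d] B` is the limit of
`X - G - Y` with `X = max_{grid of [a,b]} (B - B_b)`, `G = B_c - B_b`, `Y = min_{grid of [c,d]} (B - B_c)`, where `G` is
independent of `(X, Y)` (`hasIndepIncrements`); by TaskGauss `P(|...| < δ) ≤ C δ` for every grid, so
`P(max = min) ≤ C δ` for all `δ` (Fatou / `measure_liminf_le`). -/
def TaskTie : Prop := ∀ {Ω : Type} [MeasurableSpace Ω] (P : Measure Ω) (B : ℝ≥0 → Ω → ℝ),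
  IsBrownianReal B P → ∀ a b c d : I, a < b → b < c → c < d →
  ∀ᵐ ω ∂P, sSup (rst (fun t => B t ω) '' Icc a b) ≠ sInf (rst (fun t => B t ω) '' Icc c d)

/-- from TaskTie applied to `B` and `-B` (`IsBrownianReal.neg`), countably many rational quadruples. -/
def TaskAeNoTie : Prop := ∀ {Ω : Type} [MeasurableSpace Ω] (P : Measure Ω) (B : ℝ≥0 → Ω → ℝ),
  IsBrownianReal B P → ∀ᵐ ω ∂P, NoTie (rst (fun t => B t ω))

/-! ### general part -/

/-- Lipschitz regularisation: `G_k w = sup_v (G v - k dist v w)`. -/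
def TaskReg : Prop := ∀ {E : Type} [MetricSpace E] [Nonempty E] (G : E → ℝ) (M : ℝ), (∀ w, |G w| ≤ M) →
  ∃ g : ℕ → E → ℝ, (∀ k v w, |g k v - g k w| ≤ k * dist v w) ∧ (∀ k w, |g k w| ≤ M) ∧ (∀ k w, G w ≤ g k w) ∧
    ∀ w, ContinuousAt G w → Tendsto (fun k => g k w) atTop (𝓝 (G w))

/-- the mapping theorem, from TaskDonsker and TaskReg (applied to `G` and `-G`). -/
def TaskMap : Prop := ∀ {Ω : Type} [MeasurableSpace Ω] (P : Measure Ω) (B : ℝ≥0 → Ω → ℝ),
  IsBrownianReal B P → ∀ (G : C(I, ℝ) → ℝ) (M : ℝ), (∀ w, |G w| ≤ M) →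
  (∀ᵐ ω ∂P, ContinuousAt G (rst (fun t => B t ω))) →
  AEStronglyMeasurable (fun ω => G (rst (fun t => B t ω))) P ∧
  Tendsto (fun N : ℕ => EN N (fun e => G (W N e))) atTop (𝓝 (∫ ω, G (rst (fun t => B t ω)) ∂P))

/-- expectation of a function of the first `N` steps. -/
def TaskSteps : Prop := ∀ {Ω : Type} [MeasurableSpace Ω] (P : Measure Ω) [IsProbabilityMeasure P] (x : ℕ → Ω → ℝ),
  (∀ i, Measurable (x i)) → iIndepFun x P → (∀ i, P {ω | x i ω = 1} = 1 / 2) → (∀ i, P {ω | x i ω = -1} = 1 / 2) →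
  ∀ (N : ℕ) (g : (ℕ → ℝ) → ℝ),
    AEStronglyMeasurable (fun ω => g (fun i => if i < N then x i ω else 0)) P ∧
    ∫ ω, g (fun i => if i < N then x i ω else 0) ∂P = EN N (fun e => g (ext N e))

end

end Pool.Agent.Q215.SPN
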