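import Mathlib
import Pool.Agent.Q215.SPN.Stmts

/-!
# MP_52e894_pr: the characteristic function of the block sums
-/

set_option autoImplicit false

namespace Pool.Agent.Q215.SPN.TaskCos

open Filter Topology Set MeasureTheory ProbabilityTheory TopologicalSpace
open scoped NNReal unitInterval

theorem main : Pool.Agent.Q215.SPN.TaskCos := by
  intro m N y hm hmN
  have hN : 0 < N := by omega
  have hb : ∀ j : Fin N, (j : ℕ) * m / N < m := by
    intro j
    rw [Nat.div_lt_iff_lt_mul hN, mul_comm m N]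
    exact Nat.mul_lt_mul_of_pos_right j.2 hm
  let b : Fin N → Fin m := fun j => ⟨(j : ℕ) * m / N, hb j⟩
  have hbi : ∀ (j : Fin N) (i : Fin m), ((j : ℕ) * m / N = (i : ℕ)) ↔ b j = i := by
    intro j i
    simp [b, Fin.ext_iff]
  have hD : ∀ e : Fin N → Bool,
      ∑ i, y i * D m N e i = ∑ j : Fin N, (y (b j) / √N) * sg (e j) := by
    intro e
    unfold D
    have h1 : ∀ i : Fin m,
        y i * ((∑ j : Fin N, if (j : ℕ) * m / N = i then sg (e j) else 0) / √N) =
        ∑ j : Fin N, (if b j = i then (y i / √N) * sg (e j) else 0) := by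
      intro i
      rw [Finset.sum_div, Finset.mul_sum]
      refine Finset.sum_congr rfl (fun j _ => ?_)
      by_cases h : b j = i
      · rw [if_pos ((hbi j i).mpr h), if_pos h]
        ring
      · rw [if_neg (fun h' => h ((hbi j i).mp h')), if_neg h]
        simp
    rw [Finset.sum_congr rfl (fun i _ => h1 i), Finset.sum_comm]
    refine Finset.sum_congr rfl (fun j _ => ?_)
    simp
  have hexp : ∀ e : Fin N → Bool,
      Complex.exp (Complex.I * ((∑ i, y i * D m N e i : ℝ) : ℂ)) =
        ∏ j : Fin N, Complex.exp (Complex.I * (((y (b j) / √N) * sg (e j) : ℝ) : ℂ)) := by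
    intro e
    rw [hD, ← Complex.exp_sum]
    congr 1
    rw [← Finset.mul_sum]
    push_cast
    rfl
  simp only [hexp]
  have hsum : ∑ e : Fin N → Bool,
      ∏ j : Fin N, Complex.exp (Complex.I * (((y (b j) / √N) * sg (e j) : ℝ) : ℂ)) =
      ∏ j : Fin N, ∑ c : Bool, Complex.exp (Complex.I * (((y (b j) / √N) * sg c : ℝ) : ℂ)) := by
    rw [Finset.prod_univ_sum, Fintype.piFinset_univ]
  rw [hsum]
  have h2 : ∀ j : Fin N,
      ∑ c : Bool, Complex.exp (Complex.I * (((y (b j) / √N) * sg c : ℝ) : ℂ)) =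
        2 * ((Real.cos (y (b j) / √N) : ℝ) : ℂ) := by
    intro j
    rw [Fintype.sum_bool]
    simp only [sg, if_true, Bool.false_eq_true, if_false, mul_one, mul_neg]
    rw [Complex.ofReal_cos, Complex.cos]
    push_cast
    ring_nf
  simp only [h2]
  rw [Finset.prod_mul_distrib, Finset.prod_const, Finset.card_univ, Fintype.card_fin,
    mul_div_cancel_left₀ _ (pow_ne_zero _ (two_ne_zero))]
  rw [← Finset.prod_fiberwise Finset.univ b]
  refine Finset.prod_congr rfl (fun i _ => ?_)
  have h3 : ∀ j ∈ Finset.univ.filter (fun j => b j = i),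
      ((Real.cos (y (b j) / √N) : ℝ) : ℂ) = ((Real.cos (y i / √N) : ℝ) : ℂ) := by
    intro j hj
    rw [(Finset.mem_filter.mp hj).2]
  rw [Finset.prod_congr rfl h3, Finset.prod_const, Complex.ofReal_pow]
  congr 2
  ext j
  simp [hbi]

end Pool.Agent.Q215.SPN.TaskCos
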