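import Pool.Agent.Q215.SPN.Stmts

namespace Pool.Agent.Q215.SPN.TCosLim
open Pool.Agent.Q215.SPN
open Filter Topology Set MeasureTheory ProbabilityTheory TopologicalSpace
open scoped NNReal unitInterval

/-- `N (cos (y/√N) - 1) → -y²/2` -/
lemma lim1 (y : ℝ) : Tendsto (fun N : ℕ => (N : ℝ) * (Real.cos (y / √N) - 1)) atTop
    (𝓝 (-y ^ 2 / 2)) := by
  rw [tendsto_iff_norm_sub_tendsto_zero]
  refine squeeze_zero' (Eventually.of_forall fun _ => norm_nonneg _)
    (g := fun N : ℕ => (y ^ 4 * (5 / 96)) / (N : ℝ)) ?_ (tendsto_const_div_atTop_nhds_zero_nat _)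
  have h1 : ∀ᶠ N : ℕ in atTop, y ^ 2 ≤ (N : ℝ) := tendsto_natCast_atTop_atTop.eventually_ge_atTop _
  filter_upwards [h1, eventually_gt_atTop 0] with N hN hN0
  have hNp : (0 : ℝ) < N := by exact_mod_cast hN0
  have hs : 0 < √(N : ℝ) := Real.sqrt_pos.2 hNp
  have hss : √(N : ℝ) ^ 2 = N := Real.sq_sqrt hNp.le
  have hx : |y / √(N : ℝ)| ≤ 1 := by
    rw [abs_div, abs_of_pos hs, div_le_one hs]
    apply Real.le_sqrt_of_sq_le
    rw [sq_abs]
    exact hN
  have h2 := Real.cos_bound hx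
  have e1 : (y / √(N : ℝ)) ^ 2 = y ^ 2 / N := by rw [div_pow, hss]
  have e2 : |y / √(N : ℝ)| ^ 4 = y ^ 4 / (N : ℝ) ^ 2 := by
    have : |y / √(N : ℝ)| ^ 4 = ((y / √(N : ℝ)) ^ 2) ^ 2 := by
      rw [← pow_mul]
      exact Even.pow_abs (by decide) _
    rw [this, e1, div_pow, ← pow_mul]
  rw [e1, e2] at h2
  have e3 : (N : ℝ) * (Real.cos (y / √N) - 1) - -y ^ 2 / 2 =
      N * (Real.cos (y / √N) - (1 - y ^ 2 / N / 2)) := by
    field_simp
    ring
  rw [e3, Real.norm_eq_abs, abs_mul, abs_of_pos hNp]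
  calc (N : ℝ) * |Real.cos (y / √N) - (1 - y ^ 2 / N / 2)|
      ≤ N * (y ^ 4 / (N : ℝ) ^ 2 * (5 / 96)) := mul_le_mul_of_nonneg_left h2 hNp.le
    _ = y ^ 4 * (5 / 96) / N := by field_simp

theorem main (hC : Pool.Agent.Q215.SPN.TaskCard) : Pool.Agent.Q215.SPN.TaskCosLim := by
  intro m i y hm hi
  have hmp : (0 : ℝ) < m := by exact_mod_cast hm
  set c : ℕ → ℕ := fun N => (Finset.univ.filter fun j : Fin N => (j : ℕ) * m / N = i).card with hc
  have hlim : Tendsto (fun N : ℕ => (1 + (Real.cos (y / √N) - 1)) ^ N) atTop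
      (𝓝 (Real.exp (-y ^ 2 / 2))) := Real.tendsto_one_add_pow_exp_of_tendsto (lim1 y)
  have hratio : Tendsto (fun N : ℕ => (c N : ℝ) / N) atTop (𝓝 (1 / m)) := by
    rw [tendsto_iff_norm_sub_tendsto_zero]
    refine squeeze_zero' (Eventually.of_forall fun _ => norm_nonneg _)
      (g := fun N : ℕ => 1 / (N : ℝ)) ?_ tendsto_one_div_atTop_nhds_zero_nat
    filter_upwards [eventually_ge_atTop m] with N hN
    have hNp : (0 : ℝ) < N := by exact_mod_cast lt_of_lt_of_le hm hN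
    obtain ⟨h1, h2⟩ := hC m N i hm hN hi
    have h3 : |(c N : ℝ) - N / m| ≤ 1 := by
      rw [abs_le]
      constructor
      · show -1 ≤ (c N : ℝ) - N / m
        have : (N : ℝ) / m - 1 ≤ c N := h1
        linarith
      · have : (c N : ℝ) ≤ (N : ℝ) / m + 1 := h2
        linarith
    have e : (c N : ℝ) / N - 1 / m = ((c N : ℝ) - N / m) / N := by
      field_simp
    rw [e, Real.norm_eq_abs, abs_div, abs_of_pos hNp]
    exact div_le_div_of_nonneg_right h3 hNp.le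
  have h4 : Tendsto (fun N : ℕ => ((1 + (Real.cos (y / √N) - 1)) ^ N) ^ ((c N : ℝ) / N)) atTop
      (𝓝 (Real.exp (-y ^ 2 / 2) ^ (1 / (m : ℝ)))) :=
    hlim.rpow hratio (Or.inl (Real.exp_pos _).ne')
  have e5 : Real.exp (-y ^ 2 / 2) ^ (1 / (m : ℝ)) = Real.exp (-y ^ 2 / (2 * m)) := by
    rw [← Real.exp_mul]
    congr 1
    field_simp
  rw [e5] at h4
  refine h4.congr' ?_
  have h6 : ∀ᶠ N : ℕ in atTop, y ^ 2 ≤ (N : ℝ) := tendsto_natCast_atTop_atTop.eventually_ge_atTop _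
  filter_upwards [h6, eventually_gt_atTop 0] with N hN hN0
  have hNp : (0 : ℝ) < N := by exact_mod_cast hN0
  have hs : 0 < √(N : ℝ) := Real.sqrt_pos.2 hNp
  have hx : |y / √(N : ℝ)| ≤ 1 := by
    rw [abs_div, abs_of_pos hs, div_le_one hs]
    apply Real.le_sqrt_of_sq_le
    rw [sq_abs]
    exact hN
  have hcos : 0 ≤ Real.cos (y / √N) := by
    apply Real.cos_nonneg_of_mem_Icc
    have h7 := Real.pi_gt_three
    rw [abs_le] at hx
    constructor <;> linarith [hx.1, hx.2]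
  rw [add_sub_cancel, ← Real.rpow_natCast, ← Real.rpow_mul hcos]
  have e8 : (N : ℝ) * ((c N : ℝ) / N) = c N := by field_simp
  rw [e8, Real.rpow_natCast]

end Pool.Agent.Q215.SPN.TCosLim
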