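import Pool.Agent.Q215.SPN.Stmts

namespace Pool.Agent.Q215.SPN.TaskDonsker
open Pool.Agent.Q215.SPN
open Filter Topology Set MeasureTheory ProbabilityTheory TopologicalSpace
open scoped NNReal unitInterval

theorem main (h1 : TaskCompare) (h2 : TaskPLdist) (h3 : TaskCLT) (h4 : TaskBside) :
    Pool.Agent.Q215.SPN.TaskDonsker := by
  intro Ω _ P B hB H L M hL hlip hM
  have hM0 : 0 ≤ M := (abs_nonneg _).trans (hM 0)
  have hcont : ∀ m, Continuous (fun x : Fin m → ℝ => H (PL m x)) := by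
    intro m
    rw [continuous_iff_continuousAt]
    intro x
    rw [ContinuousAt, tendsto_iff_dist_tendsto_zero]
    have hlim : Tendsto (fun y : Fin m → ℝ => L * ∑ i, |y i - x i|) (𝓝 x) (𝓝 0) := by
      have hc : Continuous (fun y : Fin m → ℝ => L * ∑ i, |y i - x i|) := by fun_prop
      have := hc.tendsto x
      simpa using this
    refine squeeze_zero (fun _ => dist_nonneg) (fun y => ?_) hlim
    rw [Real.dist_eq]
    exact (hlip _ _).trans (mul_le_mul_of_nonneg_left (h2 m y x) hL)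
  obtain ⟨-, hI⟩ := h4 P B hB H L M hlip hM
  rw [Metric.tendsto_atTop]
  intro ε hε
  rw [Metric.tendsto_atTop] at hI
  obtain ⟨lam, hlam⟩ : ∃ lam : ℝ, lam = ε / (10 * (L + 1)) := ⟨_, rfl⟩
  have hlam0 : 0 < lam := by rw [hlam]; positivity
  have hlamL : L * (2 * lam) ≤ ε / 5 := by
    have e1 : lam * (10 * (L + 1)) = ε := by
      rw [hlam]; field_simp
    nlinarith
  obtain ⟨m0, hm0⟩ := hI (ε / 5) (by positivity)
  obtain ⟨m1, hm1⟩ := exists_nat_gt (2 * M * 12 / lam ^ 4 / (ε / 5))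
  obtain ⟨m, hmd⟩ : ∃ m, m = max m0 (max m1 1) := ⟨_, rfl⟩
  have hmm0 : m0 ≤ m := by rw [hmd]; exact le_max_left _ _
  have hmm1 : m1 ≤ m := by rw [hmd]; exact (le_max_left _ _).trans (le_max_right _ _)
  have hmpos : 0 < m := by
    have : 1 ≤ m := by rw [hmd]; exact (le_max_right _ _).trans (le_max_right _ _)
    omega
  have hA := hm0 m hmm0
  have hmR : (0 : ℝ) < m := by exact_mod_cast hmpos
  have hB2 : 2 * M * (12 / (m * lam ^ 4)) ≤ ε / 5 := by
    have e1 : 2 * M * 12 / lam ^ 4 / (ε / 5) ≤ m := by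
      have : (m1 : ℝ) ≤ m := by exact_mod_cast hmm1
      linarith
    rw [div_le_iff₀ (by positivity)] at e1
    have e2 : 2 * M * (12 / (m * lam ^ 4)) = (2 * M * 12 / lam ^ 4) / m := by
      field_simp
    rw [e2, div_le_iff₀ hmR]
    linarith
  have hC := h3 m hmpos (fun x => H (PL m x)) (hcont m) ⟨M, fun x => hM _⟩
  rw [Metric.tendsto_atTop] at hC
  obtain ⟨N0, hN0⟩ := hC (ε / 5) (by positivity)
  have hD : Tendsto (fun N : ℕ => L * (1 / √(N : ℝ))) atTop (𝓝 0) := by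
    have e1 : Tendsto (fun N : ℕ => √(N : ℝ)) atTop atTop :=
      Real.tendsto_sqrt_atTop.comp tendsto_natCast_atTop_atTop
    have e2 := (e1.inv_tendsto_atTop).const_mul L
    simpa [one_div] using e2
  rw [Metric.tendsto_atTop] at hD
  obtain ⟨N1, hN1⟩ := hD (ε / 5) (by positivity)
  refine ⟨max m (max N0 N1), fun N hN => ?_⟩
  have n1 : m ≤ N := (le_max_left _ _).trans hN
  have n2 : N0 ≤ N := (le_max_left _ _).trans ((le_max_right _ _).trans hN)
  have n3 : N1 ≤ N := (le_max_right _ _).trans ((le_max_right _ _).trans hN)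
  have f1 := h1 H L M hL hM0 hlip hM m N lam hmpos n1 hlam0
  have f2 := hN0 N n2
  have f3 := hN1 N n3
  rw [Real.dist_eq] at hA f2 f3 ⊢
  rw [sub_zero] at f3
  have f3' := (abs_lt.1 f3).2
  have f1' := abs_le.1 f1
  have f2' := abs_lt.1 f2
  have hA' := abs_lt.1 hA
  have f4 : L * (2 * lam + 1 / √(N : ℝ)) = L * (2 * lam) + L * (1 / √(N : ℝ)) := by ring
  rw [f4] at f1'
  rw [abs_lt]
  constructor
  · linarith [f1'.1, f2'.1, hA'.1]
  · linarith [f1'.2, f2'.2, hA'.2]

end Pool.Agent.Q215.SPN.TaskDonsker
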