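import Pool.Agent.Q215.SPN.Stmts

set_option autoImplicit false

namespace Pool.Agent.Q215.SPN.TaskFourth

open Pool.Agent.Q215.SPN

theorem sg_sq (b : Bool) : sg b ^ 2 = 1 := by
  cases b <;> simp [sg]

theorem flip_zero {N : ℕ} (a : Fin N) (φ : (Fin N → Bool) → ℝ)
    (h : ∀ e b, φ (Function.update e a b) = φ e) : ∑ e, φ e * sg (e a) = 0 := by
  refine Finset.sum_involution (fun e _ => Function.update e a (!e a)) ?_ ?_ ?_ ?_
  · intro e _
    rw [h, Function.update_self]
    cases e a <;> simp [sg]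
  · intro e _ _ he
    have := congrFun he a
    rw [Function.update_self] at this
    cases h' : e a <;> rw [h'] at this <;> exact absurd this (by decide)
  · intro e _
    exact Finset.mem_univ _
  · intro e _
    simp

theorem moments (N : ℕ) (J : Finset (Fin N)) :
    (∑ e : Fin N → Bool, (∑ j ∈ J, sg (e j)) ^ 2 = (J.card : ℝ) * 2 ^ N) ∧
    (∑ e : Fin N → Bool, (∑ j ∈ J, sg (e j)) ^ 4 =
      (3 * (J.card : ℝ) ^ 2 - 2 * J.card) * 2 ^ N) := by
  classical
  induction J using Finset.induction_on with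
  | empty => simp
  | insert a J ha ih =>
    obtain ⟨ih2, ih4⟩ := ih
    have hup : ∀ (e : Fin N → Bool) (b : Bool),
        (∑ j ∈ J, sg (Function.update e a b j)) = ∑ j ∈ J, sg (e j) := by
      intro e b
      refine Finset.sum_congr rfl fun j hj => ?_
      rw [Function.update_of_ne]
      rintro rfl
      exact ha hj
    have hz1 : ∑ e : Fin N → Bool, (∑ j ∈ J, sg (e j)) * sg (e a) = 0 :=
      flip_zero a (fun e => ∑ j ∈ J, sg (e j)) hup
    have hz3 : ∑ e : Fin N → Bool, (∑ j ∈ J, sg (e j)) ^ 3 * sg (e a) = 0 :=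
      flip_zero a (fun e => (∑ j ∈ J, sg (e j)) ^ 3) (fun e b => by simp only [hup])
    have hone : ∑ _e : Fin N → Bool, (1 : ℝ) = 2 ^ N := by simp
    have h2 : ∀ e : Fin N → Bool, (∑ j ∈ insert a J, sg (e j)) ^ 2 =
        (∑ j ∈ J, sg (e j)) ^ 2 + 2 * ((∑ j ∈ J, sg (e j)) * sg (e a)) + 1 := by
      intro e
      rw [Finset.sum_insert ha]
      linear_combination sg_sq (e a)
    have h4 : ∀ e : Fin N → Bool, (∑ j ∈ insert a J, sg (e j)) ^ 4 =
        (∑ j ∈ J, sg (e j)) ^ 4 + 4 * ((∑ j ∈ J, sg (e j)) ^ 3 * sg (e a)) +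
          6 * (∑ j ∈ J, sg (e j)) ^ 2 + 4 * ((∑ j ∈ J, sg (e j)) * sg (e a)) + 1 := by
      intro e
      rw [Finset.sum_insert ha]
      linear_combination (sg (e a) ^ 2 + 1 + 4 * sg (e a) * (∑ j ∈ J, sg (e j)) +
        6 * (∑ j ∈ J, sg (e j)) ^ 2) * sg_sq (e a)
    rw [Finset.card_insert_of_notMem ha]
    push_cast
    constructor
    · simp_rw [h2]
      rw [Finset.sum_add_distrib, Finset.sum_add_distrib, ← Finset.mul_sum, hz1, ih2, hone]
      ring
    · simp_rw [h4]
      rw [Finset.sum_add_distrib, Finset.sum_add_distrib, Finset.sum_add_distrib,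
        Finset.sum_add_distrib, ← Finset.mul_sum, ← Finset.mul_sum, ← Finset.mul_sum, hz1, hz3,
        ih2, ih4, hone]
      ring

theorem main : Pool.Agent.Q215.SPN.TaskFourth := by
  intro N J
  unfold EN
  rw [(moments N J).2, mul_div_assoc, div_self (by positivity), mul_one]
  have : (0 : ℝ) ≤ J.card := Nat.cast_nonneg _
  linarith

end Pool.Agent.Q215.SPN.TaskFourth
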