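import Pool.Agent.Q215.SPN.Stmts

namespace Pool.Agent.Q215.SPN.TaskGauss
open Filter Topology Set MeasureTheory ProbabilityTheory TopologicalSpace
open scoped NNReal unitInterval

private theorem pdf_le (v : ℝ≥0) (x : ℝ) :
    gaussianPDF 0 v x ≤ ENNReal.ofReal (1 / √(2 * Real.pi * v)) := by
  unfold gaussianPDF gaussianPDFReal
  apply ENNReal.ofReal_le_ofReal
  rw [one_div]
  have h1 : 0 ≤ (√(2 * Real.pi * v))⁻¹ := by positivity
  calc (√(2 * Real.pi * v))⁻¹ * Real.exp (-(x - 0) ^ 2 / (2 * v))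
      ≤ (√(2 * Real.pi * v))⁻¹ * 1 := by
        apply mul_le_mul_of_nonneg_left _ h1
        apply Real.exp_le_one_iff.mpr
        apply div_nonpos_of_nonpos_of_nonneg
        · nlinarith [sq_nonneg (x - 0)]
        · positivity
    _ = (√(2 * Real.pi * v))⁻¹ := mul_one _

private theorem gauss_le (v : ℝ≥0) (hv : 0 < v) (δ : ℝ) (hδ : 0 < δ) (z : ℝ) :
    gaussianReal 0 v {g : ℝ | |g + z| < δ} ≤ ENNReal.ofReal (2 * δ / √(2 * Real.pi * v)) := by
  have hs : {g : ℝ | |g + z| < δ} = Ioo (-δ - z) (δ - z) := by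
    ext g
    simp only [mem_setOf_eq, mem_Ioo, abs_lt]
    constructor
    · rintro ⟨h1, h2⟩
      constructor <;> linarith
    · rintro ⟨h1, h2⟩
      constructor <;> linarith
  rw [hs, gaussianReal_apply _ hv.ne']
  calc ∫⁻ x in Ioo (-δ - z) (δ - z), gaussianPDF 0 v x
      ≤ ∫⁻ _x in Ioo (-δ - z) (δ - z), ENNReal.ofReal (1 / √(2 * Real.pi * v)) :=
        lintegral_mono fun x => pdf_le v x
    _ = ENNReal.ofReal (1 / √(2 * Real.pi * v)) * ENNReal.ofReal (2 * δ) := by
        rw [lintegral_const, Measure.restrict_apply MeasurableSet.univ, univ_inter,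
          Real.volume_Ioo]
        congr 2
        ring
    _ = ENNReal.ofReal (2 * δ / √(2 * Real.pi * v)) := by
        rw [← ENNReal.ofReal_mul (by positivity)]
        congr 1
        ring

theorem main : Pool.Agent.Q215.SPN.TaskGauss := by
  intro Ω _ P _ G Z v hv hG hZ hGl hind δ hδ
  have hmap := (indepFun_iff_map_prod_eq_prod_map_map hG hZ).1 hind
  have hS : MeasurableSet {p : ℝ × ℝ | |p.1 + p.2| < δ} := by
    apply measurableSet_lt
    · fun_prop
    · fun_prop
  have h1 : P {ω | |G ω + Z ω| < δ} = (P.map fun ω => (G ω, Z ω)) {p : ℝ × ℝ | |p.1 + p.2| < δ} := by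
    rw [Measure.map_apply_of_aemeasurable (hG.prodMk hZ) hS]
    rfl
  have hprobZ : IsProbabilityMeasure (P.map Z) := Measure.isProbabilityMeasure_map hZ
  rw [h1, hmap, hGl, Measure.prod_apply_symm hS]
  calc ∫⁻ y, (gaussianReal 0 v) ((fun x => (x, y)) ⁻¹' {p : ℝ × ℝ | |p.1 + p.2| < δ}) ∂(P.map Z)
      ≤ ∫⁻ _y, ENNReal.ofReal (2 * δ / √(2 * Real.pi * v)) ∂(P.map Z) := by
        apply lintegral_mono
        intro y
        exact gauss_le v hv δ hδ y
    _ = ENNReal.ofReal (2 * δ / √(2 * Real.pi * v)) := by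
        rw [lintegral_const, measure_univ, mul_one]

end Pool.Agent.Q215.SPN.TaskGauss
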