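import Pool.Agent.Q215.SPN.Stmts

namespace Pool.Agent.Q215.SPN.TGrid

open Filter Topology Set MeasureTheory ProbabilityTheory TopologicalSpace
open scoped NNReal unitInterval
open Pool.Agent.Q215.SPN

theorem clamp_one {y : ℝ} (h : 1 ≤ y) : clamp y = 1 := by
  unfold clamp
  rw [min_eq_left h]
  exact max_eq_right zero_le_one

theorem clamp_zero {y : ℝ} (h : y ≤ 0) : clamp y = 0 := by
  unfold clamp
  rw [min_eq_right (h.trans zero_le_one)]
  exact max_eq_left h

theorem clamp_id {y : ℝ} (h : 0 ≤ y) (h1 : y ≤ 1) : clamp y = y := by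
  unfold clamp
  rw [min_eq_right h1]
  exact max_eq_right h

theorem main : Pool.Agent.Q215.SPN.TaskGrid := by
  intro N e t k hk h1 h2
  have e1 : W N e t = ∑ i : Fin N, (fun i : ℕ => ext N e i / √N * clamp (N * (t : ℝ) - i)) i := by
    change ∑ i : Fin N, sg (e i) / √N * clamp (N * (t : ℝ) - i) = _
    refine Finset.sum_congr rfl fun i _ => ?_
    have : ext N e i = sg (e i) := by
      unfold ext
      rw [dif_pos i.2]
    simp only [this]
  rw [e1, Fin.sum_univ_eq_sum_range (fun i : ℕ => ext N e i / √N * clamp (N * (t : ℝ) - i)) N]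
  have e2 : ∑ i ∈ Finset.range N, ext N e i / √N * clamp (N * (t : ℝ) - i) =
      ∑ i ∈ Finset.range (k + 1), ext N e i / √N * clamp (N * (t : ℝ) - i) := by
    symm
    apply Finset.sum_subset (Finset.range_subset_range.2 hk)
    intro i _ hi
    rw [Finset.mem_range, not_lt] at hi
    have h3 : ((k : ℝ) + 1) ≤ i := by exact_mod_cast hi
    rw [clamp_zero (by linarith), mul_zero]
  rw [e2, Finset.sum_range_succ, clamp_id (by linarith) (by linarith)]
  have e3 : ∑ i ∈ Finset.range k, ext N e i / √N * clamp (N * (t : ℝ) - i) =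
      walk (ext N e) k / √N := by
    unfold walk
    rw [Finset.sum_div]
    refine Finset.sum_congr rfl fun i hi => ?_
    rw [Finset.mem_range] at hi
    have h3 : (i : ℝ) + 1 ≤ k := by exact_mod_cast hi
    rw [clamp_one (by linarith), mul_one]
  rw [e3]
  ring

end Pool.Agent.Q215.SPN.TGrid
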