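import Pool.Agent.Q215.SPN.Stmts

/-! Law of the Brownian increments (helper5, for helper215's blueprint on MP_52e894_pr). -/

namespace Pool.Agent.Q215.SPN.TIncLaw
open Filter Topology Set MeasureTheory ProbabilityTheory TopologicalSpace
open scoped NNReal unitInterval

theorem main : Pool.Agent.Q215.SPN.TaskIncLaw := by
  intro Ω _ P B hB m hm
  have hB' : IsPreBrownianReal B P := hB.toIsPreBrownianReal
  have hP : IsProbabilityMeasure P := hB'.isGaussianProcess.isProbabilityMeasure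
  have hm0 : (m : ℝ) ≠ 0 := by exact_mod_cast hm.ne'
  have hmono : Monotone (fun i : Fin (m + 1) => (((i : ℕ) : ℝ≥0) / m)) := by
    intro a b hab
    have h1 : ((a : ℕ) : ℝ≥0) ≤ ((b : ℕ) : ℝ≥0) := by exact_mod_cast hab
    exact div_le_div_of_nonneg_right h1 (by positivity)
  have hind := hB'.hasIndepIncrements m _ hmono
  have hf : ∀ i : Fin m, AEMeasurable (fun ω => B (((i.succ : Fin (m + 1)) : ℕ) / m) ω -
      B (((i.castSucc : Fin (m + 1)) : ℕ) / m) ω) P :=
    fun i => (hB'.aemeasurable _).sub (hB'.aemeasurable _)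
  have e : (fun ω => inc m (fun t => B t ω)) = fun ω (i : Fin m) =>
      B (((i.succ : Fin (m + 1)) : ℕ) / m) ω - B (((i.castSucc : Fin (m + 1)) : ℕ) / m) ω := by
    funext ω i
    simp [inc]
  rw [e]
  refine ⟨aemeasurable_pi_lambda _ hf, ?_⟩
  rw [hind.map_fun_eq_pi_map hf]
  congr 1
  funext i
  have h := (hB'.hasLaw_sub (((i.succ : Fin (m + 1)) : ℕ) / m)
    (((i.castSucc : Fin (m + 1)) : ℕ) / m)).map_eq
  have h2 : nndist ((((i.succ : Fin (m + 1)) : ℕ) / m : ℝ≥0) : ℝ)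
      ((((i.castSucc : Fin (m + 1)) : ℕ) / m : ℝ≥0) : ℝ) = 1 / (m : ℝ≥0) := by
    apply NNReal.eq
    rw [coe_nndist, Real.dist_eq]
    push_cast
    rw [Fin.val_succ, Fin.val_castSucc]
    push_cast
    have : ((i : ℕ) + 1 : ℝ) / m - (i : ℕ) / m = 1 / m := by field_simp; ring
    rw [this, abs_of_nonneg (by positivity)]
  calc P.map (fun ω => B (((i.succ : Fin (m + 1)) : ℕ) / m) ω -
      B (((i.castSucc : Fin (m + 1)) : ℕ) / m) ω) = _ := h
    _ = gaussianReal 0 (1 / (m : ℝ≥0)) := by rw [← h2]; rfl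

end Pool.Agent.Q215.SPN.TIncLaw
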