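import Pool.Agent.Q215.SPN.Stmts

/-! Blueprint lemma `TaskLower` of `MP_52e894_pr`. -/

namespace Pool.Agent.Q215.SPN.TLower

open Filter Topology Set MeasureTheory ProbabilityTheory TopologicalSpace Pool.Agent.Q215.SPN
open scoped NNReal unitInterval

theorem main (h1 : TaskLower1) (hC : TaskCompact) : Pool.Agent.Q215.SPN.TaskLower := by
  intro w hw ε hε
  obtain ⟨t, hts, htf, hcov⟩ := (hC w).1.finite_cover_balls (half_pos hε)
  have hex : ∀ x : I, ∃ δ : ℝ, 0 < δ ∧ (x ∈ spanSet w → ∀ v : C(I, ℝ), dist v w ≤ δ →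
      ∃ y ∈ spanSet v, |(x : ℝ) - y| ≤ ε / 2) := by
    intro x
    by_cases hx : x ∈ spanSet w
    · obtain ⟨δ, hδ, h⟩ := h1 w hw x hx (ε / 2) (half_pos hε)
      exact ⟨δ, hδ, fun _ => h⟩
    · exact ⟨1, one_pos, fun h => absurd h hx⟩
  choose δ hδ0 hδ using hex
  have hev : ∀ᶠ d in 𝓝[>] (0 : ℝ), ∀ x ∈ t, d ≤ δ x :=
    (Filter.eventually_all_finite htf).2 fun x _ => by
      filter_upwards [Ioc_mem_nhdsGT (hδ0 x)] with d hd using hd.2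
  obtain ⟨d, hd, hd0⟩ := (hev.and self_mem_nhdsWithin).exists
  refine ⟨d, hd0, fun v hv x hx => ?_⟩
  obtain ⟨z, hz⟩ := mem_iUnion.1 (hcov hx)
  obtain ⟨hzt, hz⟩ := mem_iUnion.1 hz
  obtain ⟨y, hy, hzy⟩ := hδ z (hts hzt) v (hv.trans (hd z hzt))
  refine ⟨y, hy, ?_⟩
  have hxz : |(x : ℝ) - z| < ε / 2 := by
    have := Metric.mem_ball.1 hz
    rwa [Subtype.dist_eq, Real.dist_eq] at this
  calc |(x : ℝ) - y| ≤ |(x : ℝ) - z| + |(z : ℝ) - y| := abs_sub_le _ _ _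
    _ ≤ ε / 2 + ε / 2 := add_le_add hxz.le hzy
    _ = ε := by ring

end Pool.Agent.Q215.SPN.TLower
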