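import Pool.Agent.Q215.SPN.Stmts

set_option autoImplicit false

namespace Pool.Agent.Q215.SPN.TLower1

open Filter Topology Set MeasureTheory ProbabilityTheory TopologicalSpace
open scoped NNReal unitInterval
open Pool.Agent.Q215.SPN

lemma dist_pt (v w : C(I, ℝ)) (δ : ℝ) (h : dist v w ≤ δ) (y : I) : |v y - w y| ≤ δ := by
  rw [← Real.dist_eq]
  exact (ContinuousMap.dist_apply_le_dist y).trans h

lemma zero_between (v : C(I, ℝ)) (s₁ t₁ s₂ t₂ : I) (h1 : v t₁ < v s₁) (h2 : v s₂ < v t₂) :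
    ∃ r : ℝ, 0 ≤ r ∧ r ≤ 1 ∧ ∃ s' t' : I, (s' : ℝ) = (1 - r) * s₁ + r * s₂ ∧
      (t' : ℝ) = (1 - r) * t₁ + r * t₂ ∧ v s' = v t' := by
  obtain ⟨V, hV⟩ : ∃ V : ℝ → ℝ, V = fun y => v (projIcc 0 1 zero_le_one y) := ⟨_, rfl⟩
  have hVc : Continuous V := by
    rw [hV]
    exact v.continuous.comp continuous_projIcc
  have hVe : ∀ y : I, V y = v y := by
    intro y
    rw [hV]
    simp only [projIcc_val]
  obtain ⟨φ, hφ⟩ : ∃ φ : ℝ → ℝ, φ = fun r => V ((1 - r) * t₁ + r * t₂) - V ((1 - r) * s₁ + r * s₂) :=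
    ⟨_, rfl⟩
  have hφc : Continuous φ := by
    rw [hφ]
    exact (hVc.comp (by fun_prop)).sub (hVc.comp (by fun_prop))
  have e0 : φ 0 = v t₁ - v s₁ := by
    rw [hφ]
    simp only [sub_zero, one_mul, zero_mul, add_zero, hVe]
  have e1 : φ 1 = v t₂ - v s₂ := by
    rw [hφ]
    simp only [sub_self, one_mul, zero_mul, zero_add, hVe]
  obtain ⟨r, hr, hr0⟩ := intermediate_value_Icc (zero_le_one' ℝ) hφc.continuousOn
    (show (0 : ℝ) ∈ Icc (φ 0) (φ 1) by rw [e0, e1]; constructor <;> linarith)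
  have hmem : ∀ p q : I, (1 - r) * (p : ℝ) + r * q ∈ Icc (0 : ℝ) 1 := by
    intro p q
    have hp0 := p.2.1
    have hp1 := p.2.2
    have hq0 := q.2.1
    have hq1 := q.2.2
    have h3 : 0 ≤ 1 - r := by linarith [hr.2]
    constructor
    · have := mul_nonneg h3 hp0
      have := mul_nonneg hr.1 hq0
      linarith
    · have h4 : (1 - r) * (p : ℝ) ≤ (1 - r) * 1 := mul_le_mul_of_nonneg_left hp1 h3
      have h5 : r * (q : ℝ) ≤ r * 1 := mul_le_mul_of_nonneg_left hq1 hr.1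
      linarith
  refine ⟨r, hr.1, hr.2, ⟨_, hmem s₁ s₂⟩, ⟨_, hmem t₁ t₂⟩, rfl, rfl, ?_⟩
  rw [hφ] at hr0
  have h6 := hVe ⟨_, hmem s₁ s₂⟩
  have h7 := hVe ⟨_, hmem t₁ t₂⟩
  have h8 : V ((1 - r) * t₁ + r * t₂) - V ((1 - r) * s₁ + r * s₂) = 0 := hr0
  rw [← h6, ← h7]
  simp only
  linarith

theorem main : Pool.Agent.Q215.SPN.TaskLower1 := by
  rintro w hw x ⟨s, t, hst, hws, hx⟩ ε hε
  rcases eq_or_lt_of_le hst with rfl | hlt
  · refine ⟨1, one_pos, fun v _ => ⟨0, ⟨0, 0, le_rfl, rfl, by simp⟩, ?_⟩⟩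
    rw [hx]
    simp only [sub_self, Set.Icc.coe_zero, abs_zero]
    exact hε.le
  · have hs0 : (0 : ℝ) ≤ s := s.2.1
    have ht1 : (t : ℝ) ≤ 1 := t.2.2
    have hlt' : (s : ℝ) < t := hlt
    obtain ⟨b, hb1, hb2⟩ := exists_rat_btwn (show (s : ℝ) < min (((s : ℝ) + t) / 2) (s + ε / 4) by
      rw [lt_min_iff]; constructor <;> linarith)
    obtain ⟨c, hc1, hc2⟩ := exists_rat_btwn (show max (((s : ℝ) + t) / 2) (t - ε / 4) < (t : ℝ) by
      rw [max_lt_iff]; constructor <;> linarith)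
    rw [lt_min_iff] at hb2
    rw [max_lt_iff] at hc1
    obtain ⟨a, ha0, ha1, ha2⟩ : ∃ a : ℚ, (0 : ℝ) ≤ a ∧ (a : ℝ) ≤ s ∧ (s : ℝ) - ε / 4 ≤ a := by
      rcases eq_or_lt_of_le hs0 with h0 | h0
      · refine ⟨0, by simp, by simpa using hs0, ?_⟩
        rw [← h0, Rat.cast_zero]
        linarith
      · obtain ⟨a, h1, h2⟩ := exists_rat_btwn (show max 0 ((s : ℝ) - ε / 4) < s by
          rw [max_lt_iff]; constructor <;> linarith)
        rw [max_lt_iff] at h1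
        exact ⟨a, h1.1.le, h2.le, h1.2.le⟩
    obtain ⟨d, hd0, hd1, hd2⟩ : ∃ d : ℚ, (d : ℝ) ≤ 1 ∧ (t : ℝ) ≤ d ∧ (d : ℝ) ≤ t + ε / 4 := by
      rcases eq_or_lt_of_le ht1 with h0 | h0
      · refine ⟨1, by simp, by simpa using ht1, ?_⟩
        rw [h0, Rat.cast_one]
        linarith
      · obtain ⟨d, h1, h2⟩ := exists_rat_btwn (show (t : ℝ) < min 1 (t + ε / 4) by
          rw [lt_min_iff]; constructor <;> linarith)
        rw [lt_min_iff] at h2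
        exact ⟨d, h2.1.le, h1.le, h2.2.le⟩
    obtain ⟨A, hA⟩ : ∃ A : I, (A : ℝ) = a := ⟨⟨a, ha0, by linarith⟩, rfl⟩
    obtain ⟨B, hB⟩ : ∃ B : I, (B : ℝ) = b := ⟨⟨b, by linarith, by linarith⟩, rfl⟩
    obtain ⟨C', hC⟩ : ∃ C' : I, (C' : ℝ) = c := ⟨⟨c, by linarith, by linarith⟩, rfl⟩
    obtain ⟨D', hD⟩ : ∃ D' : I, (D' : ℝ) = d := ⟨⟨d, by linarith, by linarith⟩, rfl⟩
    have hAB : A < B := by
      rw [← Subtype.coe_lt_coe, hA, hB]; linarith
    have hBC : B < C' := by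
      rw [← Subtype.coe_lt_coe, hB, hC]; linarith
    have hCD : C' < D' := by
      rw [← Subtype.coe_lt_coe, hC, hD]; linarith
    have hsAB : s ∈ Icc A B := by
      constructor <;> rw [← Subtype.coe_le_coe]
      · rw [hA]; exact ha1
      · rw [hB]; exact hb1.le
    have htCD : t ∈ Icc C' D' := by
      constructor <;> rw [← Subtype.coe_le_coe]
      · rw [hC]; exact hc2.le
      · rw [hD]; exact hd1
    obtain ⟨n1, n2⟩ := hw A B C' D' ⟨a, hA⟩ ⟨b, hB⟩ ⟨c, hC⟩ ⟨d, hD⟩ hAB hBC hCD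
    have kAB : IsCompact (Icc A B) := isClosed_Icc.isCompact
    have kCD : IsCompact (Icc C' D') := isClosed_Icc.isCompact
    have bA := (kAB.image w.continuous).bddAbove
    have bA' := (kAB.image w.continuous).bddBelow
    have bC := (kCD.image w.continuous).bddAbove
    have bC' := (kCD.image w.continuous).bddBelow
    have m1 : w s ≤ sSup (w '' Icc A B) := le_csSup bA ⟨s, hsAB, rfl⟩
    have m2 : sInf (w '' Icc A B) ≤ w s := csInf_le bA' ⟨s, hsAB, rfl⟩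
    have m3 : w t ≤ sSup (w '' Icc C' D') := le_csSup bC ⟨t, htCD, rfl⟩
    have m4 : sInf (w '' Icc C' D') ≤ w t := csInf_le bC' ⟨t, htCD, rfl⟩
    obtain ⟨s₁, hs₁, es₁⟩ := kAB.exists_sSup_image_eq ⟨s, hsAB⟩ w.continuous.continuousOn
    obtain ⟨t₁, ht₁, et₁⟩ := kCD.exists_sInf_image_eq ⟨t, htCD⟩ w.continuous.continuousOn
    obtain ⟨s₂, hs₂, es₂⟩ := kAB.exists_sInf_image_eq ⟨s, hsAB⟩ w.continuous.continuousOn
    obtain ⟨t₂, ht₂, et₂⟩ := kCD.exists_sSup_image_eq ⟨t, htCD⟩ w.continuous.continuousOn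
    have l1 : w t₁ < w s₁ := by
      rw [← es₁, ← et₁]
      refine lt_of_le_of_ne ?_ n1.symm
      calc sInf (w '' Icc C' D') ≤ w t := m4
        _ = w s := hws.symm
        _ ≤ _ := m1
    have l2 : w s₂ < w t₂ := by
      rw [← es₂, ← et₂]
      refine lt_of_le_of_ne ?_ n2
      calc sInf (w '' Icc A B) ≤ w s := m2
        _ = w t := hws
        _ ≤ _ := m3
    refine ⟨min (w s₁ - w t₁) (w t₂ - w s₂) / 4, ?_, fun v hv => ?_⟩
    · have : 0 < min (w s₁ - w t₁) (w t₂ - w s₂) := lt_min (by linarith) (by linarith)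
      linarith
    · obtain ⟨δ, hδ⟩ : ∃ δ : ℝ, δ = min (w s₁ - w t₁) (w t₂ - w s₂) / 4 := ⟨_, rfl⟩
      rw [← hδ] at hv
      have d1 : 4 * δ ≤ w s₁ - w t₁ := by
        rw [hδ]; linarith [min_le_left (w s₁ - w t₁) (w t₂ - w s₂)]
      have d2 : 4 * δ ≤ w t₂ - w s₂ := by
        rw [hδ]; linarith [min_le_right (w s₁ - w t₁) (w t₂ - w s₂)]
      have q1 := abs_le.1 (dist_pt v w δ hv s₁)
      have q2 := abs_le.1 (dist_pt v w δ hv t₁)
      have q3 := abs_le.1 (dist_pt v w δ hv s₂)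
      have q4 := abs_le.1 (dist_pt v w δ hv t₂)
      have hδ0 : 0 ≤ δ := dist_nonneg.trans hv
      have r1' : v t₁ < v s₁ := by linarith [q1.1, q2.2]
      have r2' : v s₂ < v t₂ := by linarith [q3.2, q4.1]
      obtain ⟨r, hr0, hr1, s', t', es, et, hv'⟩ := zero_between v s₁ t₁ s₂ t₂ r1' r2'
      have c1 : (A : ℝ) ≤ s₁ ∧ (s₁ : ℝ) ≤ B := ⟨hs₁.1, hs₁.2⟩
      have c2 : (A : ℝ) ≤ s₂ ∧ (s₂ : ℝ) ≤ B := ⟨hs₂.1, hs₂.2⟩
      have c3 : (C' : ℝ) ≤ t₁ ∧ (t₁ : ℝ) ≤ D' := ⟨ht₁.1, ht₁.2⟩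
      have c4 : (C' : ℝ) ≤ t₂ ∧ (t₂ : ℝ) ≤ D' := ⟨ht₂.1, ht₂.2⟩
      have cvx : ∀ p q lo hi : ℝ, lo ≤ p → p ≤ hi → lo ≤ q → q ≤ hi →
          lo ≤ (1 - r) * p + r * q ∧ (1 - r) * p + r * q ≤ hi := by
        intro p q lo hi h1 h2 h3 h4
        have h5 : 0 ≤ 1 - r := by linarith
        have g1 := mul_le_mul_of_nonneg_left h1 h5
        have g2 := mul_le_mul_of_nonneg_left h3 hr0
        have g3 := mul_le_mul_of_nonneg_left h2 h5
        have g4 := mul_le_mul_of_nonneg_left h4 hr0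
        have g5 : (1 - r) * lo + r * lo = lo := by ring
        have g6 : (1 - r) * hi + r * hi = hi := by ring
        constructor
        · rw [← g5]; exact add_le_add g1 g2
        · rw [← g6]; exact add_le_add g3 g4
      have f1 := cvx s₁ s₂ A B c1.1 c1.2 c2.1 c2.2
      have f2 := cvx t₁ t₂ C' D' c3.1 c3.2 c4.1 c4.2
      rw [← es, hA, hB] at f1
      rw [← et, hC, hD] at f2
      have hle : (s' : ℝ) ≤ t' := by linarith [f1.2, f2.1, hb2.1, hc1.1]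
      have ht'1 : (t' : ℝ) ≤ 1 := t'.2.2
      have hs'0 : (0 : ℝ) ≤ s' := s'.2.1
      refine ⟨⟨(t' : ℝ) - s', by linarith, by linarith⟩, ⟨s', t', hle, hv', rfl⟩, ?_⟩
      rw [hx]
      simp only
      rw [abs_le]
      constructor
      · linarith [f1.1, f1.2, f2.1, f2.2, hb1, hb2.2, hc1.2, hc2, ha1, ha2, hd1, hd2]
      · linarith [f1.1, f1.2, f2.1, f2.2, hb1, hb2.2, hc1.2, hc2, ha1, ha2, hd1, hd2]

end Pool.Agent.Q215.SPN.TLower1
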