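import Pool.Agent.Q215.SPN.Stmts

namespace Pool.Agent.Q215.SPN.TMap
open Filter Topology Set MeasureTheory ProbabilityTheory TopologicalSpace
open scoped NNReal unitInterval
open Pool.Agent.Q215.SPN

lemma EN_mono {N : ℕ} {f g : (Fin N → Bool) → ℝ} (h : ∀ e, f e ≤ g e) : EN N f ≤ EN N g := by
  unfold EN
  exact div_le_div_of_nonneg_right (Finset.sum_le_sum fun e _ => h e) (by positivity)

lemma EN_neg {N : ℕ} {f : (Fin N → Bool) → ℝ} : EN N (fun e => -f e) = -EN N f := by
  unfold EN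
  rw [Finset.sum_neg_distrib, neg_div]

lemma key (hD : TaskDonsker) (hR : TaskReg) (hBs : TaskBside) {Ω : Type} [MeasurableSpace Ω] (P : Measure Ω)
    [IsProbabilityMeasure P] (B : ℝ≥0 → Ω → ℝ) (hB : IsBrownianReal B P) (G : C(I, ℝ) → ℝ) (M : ℝ)
    (hM : ∀ w, |G w| ≤ M) (hc : ∀ᵐ ω ∂P, ContinuousAt G (rst (fun t => B t ω))) :
    AEStronglyMeasurable (fun ω => G (rst (fun t => B t ω))) P ∧
    ∀ a, ∫ ω, G (rst (fun t => B t ω)) ∂P < a → ∀ᶠ N in atTop, EN N (fun e => G (W N e)) < a := by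
  obtain ⟨g, hL, hb, hle, hlim⟩ := hR G M hM
  have hM0 : 0 ≤ M := (abs_nonneg _).trans (hM 0)
  have hmeas : ∀ k, AEStronglyMeasurable (fun ω => g k (rst (fun t => B t ω))) P := fun k =>
    (hBs P B hB (g k) k M (hL k) (hb k)).1
  have hae : ∀ᵐ ω ∂P, Tendsto (fun k => g k (rst (fun t => B t ω))) atTop (𝓝 (G (rst (fun t => B t ω)))) := by
    filter_upwards [hc] with ω hω
    exact hlim _ hω
  have hmG := aestronglyMeasurable_of_tendsto_ae atTop hmeas hae
  refine ⟨hmG, fun a ha => ?_⟩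
  have hint : Tendsto (fun k => ∫ ω, g k (rst (fun t => B t ω)) ∂P) atTop
      (𝓝 (∫ ω, G (rst (fun t => B t ω)) ∂P)) := by
    refine tendsto_integral_of_dominated_convergence (fun _ => M) hmeas (integrable_const M) ?_ hae
    intro k
    refine Eventually.of_forall fun ω => ?_
    rw [Real.norm_eq_abs]
    exact hb k _
  obtain ⟨k, hk⟩ := (hint.eventually (gt_mem_nhds ha)).exists
  have hDk := hD P B hB (g k) k M (Nat.cast_nonneg k) (hL k) (hb k)
  filter_upwards [hDk.eventually (gt_mem_nhds hk)] with N hN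
  exact lt_of_le_of_lt (EN_mono fun e => hle k _) hN

theorem main (hD : TaskDonsker) (hR : TaskReg) (hBs : TaskBside) : TaskMap := by
  intro Ω _ P B hB G M hM hc
  have : IsProbabilityMeasure P := by
    exact hB.toIsPreBrownianReal.isGaussianProcess.isProbabilityMeasure
  obtain ⟨h1, h2⟩ := key hD hR hBs P B hB G M hM hc
  obtain ⟨h3, h4⟩ := key hD hR hBs P B hB (fun w => -G w) M (fun w => by rw [abs_neg]; exact hM w)
    (by filter_upwards [hc] with ω hω; exact hω.neg)
  refine ⟨h1, tendsto_order.2 ⟨fun a ha => ?_, fun a ha => h2 a ha⟩⟩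
  have := h4 (-a) (by rw [integral_neg]; linarith)
  filter_upwards [this] with N hN
  rw [EN_neg] at hN
  linarith

end Pool.Agent.Q215.SPN.TMap
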