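import Pool.Agent.Q215.SPN.Stmts

namespace Pool.Agent.Q215.SPN.TMaxIneq

open Pool.Agent.Q215.SPN

noncomputable section

/-- partial sums -/
def S {N : ℕ} (J : Finset (Fin N)) (e : Fin N → Bool) (k : ℕ) : ℝ :=
  ∑ j ∈ J, if (j : ℕ) < k then sg (e j) else 0

/-- flip all signs from `k` on -/
def fl {N : ℕ} (k : ℕ) (e : Fin N → Bool) : Fin N → Bool :=
  fun j => if (j : ℕ) < k then e j else !(e j)

theorem sg_not (b : Bool) : sg (!b) = - sg b := by
  cases b <;> simp [sg]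

theorem fl_fl {N : ℕ} (k : ℕ) (e : Fin N → Bool) : fl k (fl k e) = e := by
  funext j
  unfold fl
  by_cases h : (j : ℕ) < k <;> simp [h]

theorem S_fl {N : ℕ} (J : Finset (Fin N)) (e : Fin N → Bool) (k l : ℕ) (h : l ≤ k) :
    S J (fl k e) l = S J e l := by
  unfold S fl
  refine Finset.sum_congr rfl fun j _ => ?_
  by_cases hj : (j : ℕ) < l
  · rw [if_pos hj, if_pos hj, if_pos (lt_of_lt_of_le hj h)]
  · rw [if_neg hj, if_neg hj]

theorem S_add {N : ℕ} (J : Finset (Fin N)) (e : Fin N → Bool) (k : ℕ) :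
    S J (fl k e) N = 2 * S J e k - S J e N := by
  unfold S fl
  rw [Finset.mul_sum, ← Finset.sum_sub_distrib]
  refine Finset.sum_congr rfl fun j _ => ?_
  rw [if_pos j.2, if_pos j.2]
  by_cases hj : (j : ℕ) < k
  · simp only [hj, if_true]
    ring
  · simp only [hj, if_false, sg_not]
    ring

/-- the first time -/
def ka {N : ℕ} (J : Finset (Fin N)) (a : ℝ) (e : Fin N → Bool) : ℕ :=
  sInf {k | k ≤ N ∧ a < |S J e k|}

theorem ka_spec {N : ℕ} (J : Finset (Fin N)) (a : ℝ) (e : Fin N → Bool)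
    (h : ∃ k ≤ N, a < |S J e k|) : ka J a e ≤ N ∧ a < |S J e (ka J a e)| := by
  obtain ⟨k, hk⟩ := h
  exact Nat.sInf_mem (s := {k | k ≤ N ∧ a < |S J e k|}) ⟨k, hk⟩

theorem fl_mem {N : ℕ} (J : Finset (Fin N)) (a : ℝ) (e : Fin N → Bool)
    (h : ∃ k ≤ N, a < |S J e k|) : ∃ k ≤ N, a < |S J (fl (ka J a e) e) k| := by
  obtain ⟨h1, h2⟩ := ka_spec J a e h
  refine ⟨ka J a e, h1, ?_⟩
  rw [S_fl J e _ _ le_rfl]
  exact h2

theorem ka_fl {N : ℕ} (J : Finset (Fin N)) (a : ℝ) (e : Fin N → Bool)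
    (h : ∃ k ≤ N, a < |S J e k|) : ka J a (fl (ka J a e) e) = ka J a e := by
  obtain ⟨h1, h2⟩ := ka_spec J a e h
  have h3 : ka J a (fl (ka J a e) e) ≤ ka J a e := by
    refine Nat.sInf_le (s := {k | k ≤ N ∧ a < |S J (fl (ka J a e) e) k|}) ⟨h1, ?_⟩
    rw [S_fl J e _ _ le_rfl]
    exact h2
  refine le_antisymm h3 ?_
  obtain ⟨h4, h5⟩ := ka_spec J a _ (fl_mem J a e h)
  rw [S_fl J e _ _ h3] at h5
  exact Nat.sInf_le (s := {k | k ≤ N ∧ a < |S J e k|}) ⟨h4, h5⟩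

theorem main (h4 : TaskFourth) : Pool.Agent.Q215.SPN.TaskMaxIneq := by
  classical
  intro N J a ha
  set A : Finset (Fin N → Bool) := Finset.univ.filter fun e => ∃ k ≤ N, a < |S J e k| with hA
  have hmem : ∀ e, e ∈ A ↔ ∃ k ≤ N, a < |S J e k| := by
    intro e
    simp [hA]
  have hbij : ∑ e ∈ A, S J (fl (ka J a e) e) N ^ 4 = ∑ e ∈ A, S J e N ^ 4 := by
    refine Finset.sum_nbij' (fun e => fl (ka J a e) e) (fun e => fl (ka J a e) e) ?_ ?_ ?_ ?_ ?_
    · intro e he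
      rw [hmem] at he ⊢
      exact fl_mem J a e he
    · intro e he
      rw [hmem] at he ⊢
      exact fl_mem J a e he
    · intro e he
      rw [hmem] at he
      simp only [ka_fl J a e he, fl_fl]
    · intro e he
      rw [hmem] at he
      simp only [ka_fl J a e he, fl_fl]
    · intro e _
      rfl
  have hpt : ∀ e ∈ A, 2 * a ^ 4 ≤ S J e N ^ 4 + S J (fl (ka J a e) e) N ^ 4 := by
    intro e he
    rw [hmem] at he
    obtain ⟨_, h2⟩ := ka_spec J a e he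
    rw [S_add]
    set x := S J e (ka J a e)
    set y := S J e N
    have h3 : a ^ 4 ≤ x ^ 4 := by
      have := pow_le_pow_left₀ ha.le h2.le 4
      rwa [show |x| ^ 4 = x ^ 4 from by
        rw [show (4 : ℕ) = 2 * 2 by norm_num, pow_mul, sq_abs, ← pow_mul]] at this
    have h5 : y ^ 4 + (2 * x - y) ^ 4 = 2 * x ^ 4 + 12 * (x * (y - x)) ^ 2 + 2 * ((y - x) ^ 2) ^ 2 := by
      ring
    rw [h5]
    nlinarith [sq_nonneg (x * (y - x)), sq_nonneg ((y - x) ^ 2)]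
  have hsum : a ^ 4 * A.card ≤ ∑ e ∈ A, S J e N ^ 4 := by
    have h6 : ∑ e ∈ A, (2 * a ^ 4) ≤ ∑ e ∈ A, (S J e N ^ 4 + S J (fl (ka J a e) e) N ^ 4) :=
      Finset.sum_le_sum hpt
    rw [Finset.sum_add_distrib, hbij, Finset.sum_const, nsmul_eq_mul] at h6
    linarith
  have hall : ∑ e ∈ A, S J e N ^ 4 ≤ ∑ e : Fin N → Bool, (∑ j ∈ J, sg (e j)) ^ 4 := by
    have h7 : ∀ e : Fin N → Bool, S J e N = ∑ j ∈ J, sg (e j) := by
      intro e
      unfold S
      exact Finset.sum_congr rfl fun j _ => if_pos j.2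
    calc ∑ e ∈ A, S J e N ^ 4 ≤ ∑ e : Fin N → Bool, S J e N ^ 4 :=
          Finset.sum_le_sum_of_subset_of_nonneg (Finset.subset_univ _) fun e _ _ => by positivity
      _ = ∑ e : Fin N → Bool, (∑ j ∈ J, sg (e j)) ^ 4 :=
          Finset.sum_congr rfl fun e _ => by rw [h7]
  have h8 := h4 N J
  unfold EN at h8 ⊢
  have h2N : (0 : ℝ) < 2 ^ N := by positivity
  rw [div_le_iff₀ h2N] at h8
  have hcard : (∑ e : Fin N → Bool, if ∃ k ≤ N, a < |∑ j ∈ J, if (j : ℕ) < k then sg (e j) else 0|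
      then (1 : ℝ) else 0) = A.card := by
    rw [hA, Finset.card_filter]
    push_cast
    rfl
  rw [div_le_div_iff₀ h2N (by positivity)]
  have h9 : a ^ 4 * A.card ≤ 3 * (J.card : ℝ) ^ 2 * 2 ^ N := hsum.trans (hall.trans h8)
  refine le_trans (le_of_eq ?_) h9
  rw [← hcard, mul_comm]

end

end Pool.Agent.Q215.SPN.TMaxIneq
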