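import Pool.Agent.Q215.SPN.Stmts

/-! MP_52e894_pr: task PLapprox. -/

namespace Pool.Agent.Q215.SPN.TaskPLapprox
open Filter Topology Set MeasureTheory ProbabilityTheory TopologicalSpace
open scoped NNReal unitInterval

theorem clamp_one {y : ℝ} (h : 1 ≤ y) : clamp y = 1 := by
  unfold clamp; rw [min_eq_left h]; simp

theorem clamp_mid {y : ℝ} (h0 : 0 ≤ y) (h : y ≤ 1) : clamp y = y := by
  unfold clamp; rw [min_eq_right h, max_eq_right h0]

theorem clamp_zero {y : ℝ} (h : y ≤ 0) : clamp y = 0 := by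
  unfold clamp; rw [min_eq_right (h.trans zero_le_one), max_eq_left h]

theorem sum_formula (β : ℕ → ℝ) (s : ℝ) (hs : 0 ≤ s) (j : ℕ) :
    ((j : ℝ) ≤ s → ∑ i ∈ Finset.range j, (β (i + 1) - β i) * clamp (s - i) = β j - β 0) ∧
    (s < j → ∑ i ∈ Finset.range j, (β (i + 1) - β i) * clamp (s - i) =
      β ⌊s⌋₊ + (s - ⌊s⌋₊) * (β (⌊s⌋₊ + 1) - β ⌊s⌋₊) - β 0) := by
  induction j with
  | zero =>
    refine ⟨fun _ => by simp, fun h => ?_⟩
    exfalso
    rw [Nat.cast_zero] at h
    linarith
  | succ j ih =>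
    rw [Finset.sum_range_succ]
    constructor
    · intro h
      push_cast at h
      rw [ih.1 (by linarith), clamp_one (by linarith)]
      ring
    · intro h
      push_cast at h
      by_cases hj : (j : ℝ) ≤ s
      · have hfl : ⌊s⌋₊ = j := by
          rw [Nat.floor_eq_iff hs]
          exact ⟨hj, h⟩
        rw [ih.1 hj, hfl, clamp_mid (by linarith) (by linarith)]
        ring
      · rw [ih.2 (not_le.mp hj), clamp_zero (by linarith [not_le.mp hj])]
        ring

theorem main : TaskPLapprox := by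
  intro b hb hb0
  rw [Metric.tendsto_atTop]
  intro ε hε
  have hrst : ∀ t : I, rst b t = b ⟨t, t.2.1⟩ := by
    intro t
    unfold rst
    rw [dif_pos hb]
    rfl
  have huc : UniformContinuous (fun t : I => rst b t) :=
    CompactSpace.uniformContinuous_of_continuous (rst b).continuous
  obtain ⟨δ, hδ, h⟩ := Metric.uniformContinuous_iff.mp huc (ε / 2) (half_pos hε)
  obtain ⟨M, hM⟩ := exists_nat_gt (1 / δ)
  refine ⟨M + 1, fun m hm => ?_⟩
  have hmpos : (0 : ℝ) < m := by exact_mod_cast (by omega : 0 < m)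
  have hmδ : 1 / (m : ℝ) < δ := by
    have h1 : 1 / δ < m := hM.trans_le (by exact_mod_cast (by omega : M ≤ m))
    rw [div_lt_iff₀ hmpos]
    rw [div_lt_iff₀ hδ] at h1
    linarith
  refine lt_of_le_of_lt ((ContinuousMap.dist_le (by positivity)).mpr fun t => ?_) (half_lt_self hε)
  let β : ℕ → ℝ := fun i => b ((i : ℝ≥0) / m)
  have hβI : ∀ i : ℕ, i ≤ m → |(i : ℝ) / m - t| ≤ 1 / m → |β i - rst b t| < ε / 2 := by
    intro i hi hdist
    have h0 : (0 : ℝ) ≤ (i : ℝ) / m := by positivity
    have h1 : (i : ℝ) / m ≤ 1 := by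
      rw [div_le_one hmpos]
      exact_mod_cast hi
    have h2 : rst b ⟨(i : ℝ) / m, h0, h1⟩ = β i := by
      rw [hrst]
      show b _ = b _
      congr 1
    have h3 := h (a := (⟨(i : ℝ) / m, h0, h1⟩ : I)) (b := t) (by
      rw [Subtype.dist_eq, Real.dist_eq]
      exact lt_of_le_of_lt hdist hmδ)
    rw [Real.dist_eq, h2] at h3
    exact h3
  have hval : PL m (inc m b) t =
      ∑ i ∈ Finset.range m, (β (i + 1) - β i) * clamp (m * (t : ℝ) - i) := by
    rw [← Fin.sum_univ_eq_sum_range (fun i => (β (i + 1) - β i) * clamp (m * (t : ℝ) - i))]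
    show ∑ i : Fin m, inc m b i * clamp (m * (t : ℝ) - (i : ℕ)) = _
    refine Finset.sum_congr rfl fun i _ => ?_
    congr 1
    show b _ - b _ = b _ - b _
    push_cast
    rfl
  have hβ0 : β 0 = 0 := by
    show b _ = 0
    rw [Nat.cast_zero, zero_div, hb0]
  have ht0 : 0 ≤ (t : ℝ) := t.2.1
  have ht1 : (t : ℝ) ≤ 1 := t.2.2
  have hs : 0 ≤ (m : ℝ) * t := by positivity
  rw [Real.dist_eq, hval]
  by_cases hcase : (m : ℝ) ≤ m * t
  · rw [(sum_formula β (m * t) hs m).1 hcase, hβ0, sub_zero]
    have ht : (t : ℝ) = 1 := by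
      apply le_antisymm ht1
      by_contra hlt
      push Not at hlt
      nlinarith
    refine (hβI m le_rfl ?_).le
    rw [ht, div_self hmpos.ne', sub_self, abs_zero]
    positivity
  · push Not at hcase
    rw [(sum_formula β (m * t) hs m).2 hcase, hβ0, sub_zero]
    set k := ⌊(m : ℝ) * t⌋₊ with hk
    have hk1 : (k : ℝ) ≤ m * t := Nat.floor_le hs
    have hk2 : (m : ℝ) * t < k + 1 := Nat.lt_floor_add_one _
    have hkm : k < m := by
      have : (k : ℝ) < m := lt_of_le_of_lt hk1 hcase
      exact_mod_cast this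
    have e1 := hβI k hkm.le (by
      rw [abs_le]
      constructor
      · have : (t : ℝ) ≤ ((k : ℝ) + 1) / m := by
          rw [le_div_iff₀ hmpos]; linarith
        rw [add_div] at this
        linarith
      · have : (k : ℝ) / m ≤ t := by
          rw [div_le_iff₀ hmpos]; linarith
        have h3 : (0 : ℝ) ≤ 1 / m := by positivity
        linarith)
    have e2 := hβI (k + 1) hkm (by
      push_cast
      rw [abs_le]
      constructor
      · have : (t : ℝ) ≤ ((k : ℝ) + 1) / m := by
          rw [le_div_iff₀ hmpos]; linarith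
        have h3 : (0 : ℝ) ≤ 1 / m := by positivity
        linarith
      · have : (k : ℝ) / m ≤ t := by
          rw [div_le_iff₀ hmpos]; linarith
        rw [add_div]
        linarith)
    have e3 : β k + (m * t - k) * (β (k + 1) - β k) - rst b t =
        (1 - (m * t - k)) * (β k - rst b t) + (m * t - k) * (β (k + 1) - rst b t) := by ring
    rw [e3]
    have hθ0 : 0 ≤ (m : ℝ) * t - k := by linarith
    have hθ1 : 0 ≤ 1 - ((m : ℝ) * t - k) := by linarith
    refine (abs_add_le _ _).trans ?_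
    rw [abs_mul, abs_mul, abs_of_nonneg hθ0, abs_of_nonneg hθ1]
    nlinarith [mul_le_mul_of_nonneg_left e1.le hθ1, mul_le_mul_of_nonneg_left e2.le hθ0]

end Pool.Agent.Q215.SPN.TaskPLapprox
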