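import Pool.Agent.Q215.SPN.Stmts

set_option autoImplicit false

namespace Pool.Agent.Q215.SPN.TPLdist

open Pool.Agent.Q215.SPN

theorem clamp_nonneg (y : ℝ) : 0 ≤ clamp y := le_max_left _ _

theorem clamp_le_one (y : ℝ) : clamp y ≤ 1 := max_le zero_le_one (min_le_left _ _)

theorem main : Pool.Agent.Q215.SPN.TaskPLdist := by
  intro m x y
  have h0 : 0 ≤ ∑ i, |x i - y i| := Finset.sum_nonneg fun i _ => abs_nonneg _
  refine (ContinuousMap.dist_le h0).2 fun t => ?_
  rw [Real.dist_eq]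
  have h1 : PL m x t - PL m y t = ∑ i : Fin m, (x i - y i) * clamp (m * (t : ℝ) - i) := by
    change (∑ i : Fin m, x i * clamp (m * (t : ℝ) - i)) -
      (∑ i : Fin m, y i * clamp (m * (t : ℝ) - i)) = _
    rw [← Finset.sum_sub_distrib]
    exact Finset.sum_congr rfl fun i _ => by ring
  rw [h1]
  refine (Finset.abs_sum_le_sum_abs _ _).trans (Finset.sum_le_sum fun i _ => ?_)
  rw [abs_mul, abs_of_nonneg (clamp_nonneg _)]
  exact mul_le_of_le_one_right (abs_nonneg _) (clamp_le_one _)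

end Pool.Agent.Q215.SPN.TPLdist
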