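import Pool.Agent.Q215.SPN.Stmts

/-! MP_52e894_pr, task Reg (helper204): Lipschitz regularisation. -/

set_option autoImplicit false

namespace Pool.Agent.Q215.SPN.TReg

open Filter Topology Set
open Pool.Agent.Q215.SPN

theorem main : Pool.Agent.Q215.SPN.TaskReg := by
  intro E _ _ G M hM
  have hbd : ∀ (k : ℕ) (w : E), BddAbove (range fun v => G v - k * dist v w) := by
    intro k w
    refine ⟨M, ?_⟩
    rintro _ ⟨v, rfl⟩
    have h1 := (abs_le.mp (hM v)).2
    have h2 : 0 ≤ (k : ℝ) * dist v w := by positivity
    simp only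
    linarith
  have hge : ∀ (k : ℕ) (w : E), G w ≤ ⨆ v, (G v - k * dist v w) := by
    intro k w
    have h := le_ciSup (hbd k w) w
    simpa using h
  refine ⟨fun k w => ⨆ v, (G v - k * dist v w), ?_, ?_, hge, ?_⟩
  · intro k v w
    have key : ∀ a b : E, (⨆ x, (G x - k * dist x a)) ≤ (⨆ x, (G x - k * dist x b)) + k * dist a b := by
      intro a b
      refine ciSup_le fun x => ?_
      have h1 := le_ciSup (hbd k b) x
      have h2 : dist x b ≤ dist x a + dist a b := dist_triangle _ _ _
      have h3 : (k : ℝ) * dist x b ≤ k * (dist x a + dist a b) :=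
        mul_le_mul_of_nonneg_left h2 (Nat.cast_nonneg k)
      nlinarith
    rw [abs_le]
    constructor
    · have := key w v
      rw [dist_comm w v] at this
      linarith
    · have := key v w
      linarith
  · intro k w
    rw [abs_le]
    constructor
    · have h1 := (abs_le.mp (hM w)).1
      exact h1.trans (hge k w)
    · refine ciSup_le fun v => ?_
      have h1 := (abs_le.mp (hM v)).2
      have h2 : 0 ≤ (k : ℝ) * dist v w := by positivity
      linarith
  · intro w hw
    rw [Metric.tendsto_atTop]
    intro ε hε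
    obtain ⟨δ, hδ, hG⟩ := Metric.continuousAt_iff.mp hw (ε / 2) (by linarith)
    obtain ⟨n, hn⟩ := exists_nat_gt (2 * M / δ)
    refine ⟨n, fun k hk => ?_⟩
    have hk' : 2 * M < k * δ := by
      have h1 : (n : ℝ) ≤ k := by exact_mod_cast hk
      rw [div_lt_iff₀ hδ] at hn
      exact hn.trans_le (mul_le_mul_of_nonneg_right h1 hδ.le)
    have hup : (⨆ v, (G v - k * dist v w)) ≤ G w + ε / 2 := by
      refine ciSup_le fun v => ?_
      rcases lt_or_ge (dist v w) δ with h | h
      · have h1 := hG h
        rw [Real.dist_eq] at h1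
        have h2 := (abs_lt.mp h1).2
        have h3 : 0 ≤ (k : ℝ) * dist v w := by positivity
        linarith
      · have h1 := (abs_le.mp (hM v)).2
        have h2 := (abs_le.mp (hM w)).1
        have h3 : (k : ℝ) * δ ≤ k * dist v w := mul_le_mul_of_nonneg_left h (Nat.cast_nonneg k)
        linarith
    rw [Real.dist_eq, abs_lt]
    have := hge k w
    constructor <;> linarith

end Pool.Agent.Q215.SPN.TReg
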