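import Mathlib
import Pool.Agent.Q215.SPN.Stmts

set_option autoImplicit false

namespace Pool.Agent.Q215.SPN.TRw1

open Filter Topology Set MeasureTheory ProbabilityTheory TopologicalSpace
open scoped NNReal unitInterval

theorem value (hG : TaskGrid) (N : ℕ) (e : Fin N → Bool) (hN : 0 < N) (j : ℕ) (hj : j ≤ N) (t : I)
    (ht : (t : ℝ) = j / N) : W N e t = walk (ext N e) j / √N := by
  have hN' : (0 : ℝ) < N := by exact_mod_cast hN
  have hNt : (N : ℝ) * (t : ℝ) = j := by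
    rw [ht]
    field_simp
  rcases hj.lt_or_eq with h | h
  · have h1 := hG N e t j h (by rw [hNt]) (by rw [hNt]; linarith)
    rw [h1, hNt]
    simp
  · subst h
    obtain ⟨i, rfl⟩ : ∃ i, j = i + 1 := ⟨j - 1, by omega⟩
    have h1 := hG (i + 1) e t i (by omega) (by rw [hNt]; push_cast; linarith)
      (by rw [hNt]; push_cast; linarith)
    rw [h1, hNt]
    congr 1
    unfold walk
    rw [Finset.sum_range_succ]
    push_cast
    ring

theorem main (hG : TaskGrid) : TaskRw1 := by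
  intro N e hN y hy
  obtain ⟨l, k, hlk, hkN, hw, hy⟩ := hy
  have hN' : (0 : ℝ) < N := by exact_mod_cast hN
  have mem : ∀ j : ℕ, j ≤ N → ((j : ℝ) / N) ∈ I := fun j hj =>
    ⟨by positivity, by rw [div_le_one hN']; exact_mod_cast hj⟩
  refine ⟨⟨(l : ℝ) / N, mem l (hlk.trans hkN)⟩, ⟨(k : ℝ) / N, mem k hkN⟩, ?_, ?_, ?_⟩
  · show (l : ℝ) / N ≤ (k : ℝ) / N
    have : (l : ℝ) ≤ k := by exact_mod_cast hlk
    gcongr
  · rw [value hG N e hN l (hlk.trans hkN) _ rfl, value hG N e hN k hkN _ rfl, hw]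
  · show (y : ℝ) = (k : ℝ) / N - (l : ℝ) / N
    rw [hy]
    ring

end Pool.Agent.Q215.SPN.TRw1
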