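import Pool.Agent.Q215.SPN.Stmts

namespace Pool.Agent.Q215.SPN.TaskRw2
open Pool.Agent.Q215.SPN
open scoped unitInterval

theorem idx (N : ℕ) (hN : 0 < N) (t : I) :
    ∃ k : ℕ, k < N ∧ (k : ℝ) ≤ N * (t : ℝ) ∧ N * (t : ℝ) ≤ k + 1 := by
  have hNr : (0:ℝ) < N := by exact_mod_cast hN
  have ht0 : (0:ℝ) ≤ N * (t:ℝ) := mul_nonneg hNr.le t.2.1
  have ht1 : N * (t:ℝ) ≤ N := by nlinarith [t.2.2]
  by_cases h : ⌊N * (t:ℝ)⌋₊ < N
  · exact ⟨_, h, Nat.floor_le ht0, (Nat.lt_floor_add_one _).le⟩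
  · refine ⟨N - 1, by omega, ?_, ?_⟩
    · have h1 : (N:ℝ) ≤ ⌊N * (t:ℝ)⌋₊ := by exact_mod_cast not_lt.1 h
      have h2 := Nat.floor_le ht0
      have h3 : ((N - 1 : ℕ) : ℝ) ≤ N := by exact_mod_cast Nat.sub_le _ _
      linarith
    · have h4 : ((N - 1 : ℕ) : ℝ) + 1 = N := by
        have : N - 1 + 1 = N := by omega
        exact_mod_cast this
      linarith

theorem extpm (N : ℕ) (e : Fin N → Bool) (i : ℕ) (h : i < N) :
    ∃ z : ℤ, ext N e i = z ∧ (z = 1 ∨ z = -1) := by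
  unfold ext sg
  rw [dif_pos h]
  by_cases hb : e ⟨i, h⟩ = true
  · exact ⟨1, by simp [hb], Or.inl rfl⟩
  · exact ⟨-1, by simp [hb], Or.inr rfl⟩

theorem extint (N : ℕ) (e : Fin N → Bool) (i : ℕ) : ∃ z : ℤ, ext N e i = z := by
  by_cases h : i < N
  · obtain ⟨z, hz, -⟩ := extpm N e i h
    exact ⟨z, hz⟩
  · exact ⟨0, by unfold ext; rw [dif_neg h]; simp⟩

theorem walk_succ (x : ℕ → ℝ) (n : ℕ) : walk x (n + 1) = walk x n + x n := by
  unfold walk; rw [Finset.sum_range_succ]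

theorem walkint (N : ℕ) (e : Fin N → Bool) (n : ℕ) : ∃ z : ℤ, walk (ext N e) n = z := by
  induction n with
  | zero => exact ⟨0, by unfold walk; simp⟩
  | succ n ih =>
    obtain ⟨z, hz⟩ := ih
    obtain ⟨w, hw⟩ := extint N e n
    exact ⟨z + w, by rw [walk_succ, hz, hw]; push_cast; ring⟩

theorem cases4 (p q ε δ : ℤ) (a b : ℝ) (ha0 : 0 ≤ a) (ha1 : a ≤ 1) (hb0 : 0 ≤ b) (hb1 : b ≤ 1)
    (hε : ε = 1 ∨ ε = -1) (hδ : δ = 1 ∨ δ = -1) (h : (p:ℝ) + a * ε = q + b * δ) :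
    p = q ∨ p + ε = q ∨ p = q + δ ∨ p + ε = q + δ := by
  rcases hε with rfl | rfl <;> rcases hδ with rfl | rfl <;> push_cast at h
  · have h1 : (p:ℝ) ≤ q + 1 := by linarith
    have h2 : (q:ℝ) ≤ p + 1 := by linarith
    have h1' : p ≤ q + 1 := by exact_mod_cast h1
    have h2' : q ≤ p + 1 := by exact_mod_cast h2
    omega
  · have h1 : (p:ℝ) ≤ q := by linarith
    have h2 : (q:ℝ) ≤ p + 2 := by linarith
    have h1' : p ≤ q := by exact_mod_cast h1
    have h2' : q ≤ p + 2 := by exact_mod_cast h2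
    omega
  · have h1 : (p:ℝ) ≤ q + 2 := by linarith
    have h2 : (q:ℝ) ≤ p := by linarith
    have h1' : p ≤ q + 2 := by exact_mod_cast h1
    have h2' : q ≤ p := by exact_mod_cast h2
    omega
  · have h1 : (p:ℝ) ≤ q + 1 := by linarith
    have h2 : (q:ℝ) ≤ p + 1 := by linarith
    have h1' : p ≤ q + 1 := by exact_mod_cast h1
    have h2' : q ≤ p + 1 := by exact_mod_cast h2
    omega

theorem fin (N : ℕ) (e : Fin N → Bool) (hN : 0 < N) (s t : I) (l k : ℕ)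
    (hlk : l ≤ k) (hkN : k ≤ N) (hw : walk (ext N e) k = walk (ext N e) l)
    (h1 : |(t:ℝ) * N - k| ≤ 1) (h2 : |(s:ℝ) * N - l| ≤ 1) :
    ∃ y ∈ rwSpan N (ext N e), |((t:ℝ) - s) - (y:ℝ)| ≤ 2 / N := by
  have hNr : (0:ℝ) < N := by exact_mod_cast hN
  have hlk' : (l:ℝ) ≤ k := by exact_mod_cast hlk
  have hkN' : (k:ℝ) ≤ N := by exact_mod_cast hkN
  have hl0 : (0:ℝ) ≤ l := by positivity
  refine ⟨⟨((k:ℝ) - l) / N, div_nonneg (by linarith) hNr.le, ?_⟩, ⟨l, k, hlk, hkN, hw, rfl⟩, ?_⟩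
  · rw [div_le_one hNr]; linarith
  · show |((t:ℝ) - s) - ((k:ℝ) - l) / N| ≤ 2 / N
    have e1 : ((t:ℝ) - s) - ((k:ℝ) - l) / N = (((t:ℝ) * N - k) - ((s:ℝ) * N - l)) / N := by
      field_simp; ring
    rw [e1, abs_div, abs_of_pos hNr]
    apply div_le_div_of_nonneg_right _ hNr.le
    calc |((t:ℝ) * N - k) - ((s:ℝ) * N - l)| ≤ |(t:ℝ) * N - k| + |(s:ℝ) * N - l| := abs_sub _ _
      _ ≤ 2 := by linarith

theorem main (hGrid : TaskGrid) : Pool.Agent.Q215.SPN.TaskRw2 := by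
  intro N e hN x hx
  obtain ⟨s, t, hst, hW, hxe⟩ := hx
  have hNr : (0:ℝ) < N := by exact_mod_cast hN
  have hst' : (s:ℝ) ≤ t := hst
  obtain ⟨l, hlN, hl1, hl2⟩ := idx N hN s
  obtain ⟨k, hkN, hk1, hk2⟩ := idx N hN t
  rw [hxe]
  by_cases hlk : l < k
  · have hs := hGrid N e s l hlN hl1 hl2
    have ht := hGrid N e t k hkN hk1 hk2
    obtain ⟨p, hp⟩ := walkint N e l
    obtain ⟨q, hq⟩ := walkint N e k
    obtain ⟨ε, hε, hε'⟩ := extpm N e l hlN
    obtain ⟨δ, hδ, hδ'⟩ := extpm N e k hkN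
    have hsq : (0:ℝ) < √N := Real.sqrt_pos.2 hNr
    have heq : (p:ℝ) + (N * (s:ℝ) - l) * ε = q + (N * (t:ℝ) - k) * δ := by
      rw [hp, hε] at hs
      rw [hq, hδ] at ht
      rw [hs, ht] at hW
      exact (div_left_inj' hsq.ne').1 hW
    have hl1s : walk (ext N e) (l + 1) = ((p + ε : ℤ) : ℝ) := by
      rw [walk_succ, hp, hε]; push_cast; rfl
    have hk1s : walk (ext N e) (k + 1) = ((q + δ : ℤ) : ℝ) := by
      rw [walk_succ, hq, hδ]; push_cast; rfl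
    rcases cases4 p q ε δ _ _ (by linarith) (by linarith) (by linarith) (by linarith) hε' hδ' heq with
      h | h | h | h
    · refine fin N e hN s t l k hlk.le hkN.le (by rw [hp, hq, h]) ?_ ?_
      · rw [abs_le]; constructor <;> linarith
      · rw [abs_le]; constructor <;> linarith
    · refine fin N e hN s t (l + 1) k hlk hkN.le (by rw [hl1s, hq, h]) ?_ ?_
      · rw [abs_le]; constructor <;> linarith
      · push_cast; rw [abs_le]; constructor <;> linarith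
    · refine fin N e hN s t l (k + 1) (by omega) (by omega) (by rw [hk1s, hp, h]) ?_ ?_
      · push_cast; rw [abs_le]; constructor <;> linarith
      · rw [abs_le]; constructor <;> linarith
    · refine fin N e hN s t (l + 1) (k + 1) (by omega) (by omega) (by rw [hk1s, hl1s, h]) ?_ ?_
      · push_cast; rw [abs_le]; constructor <;> linarith
      · push_cast; rw [abs_le]; constructor <;> linarith
  · have hkl : (k:ℝ) ≤ l := by exact_mod_cast not_lt.1 hlk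
    refine ⟨⟨0, by simp⟩, ⟨0, 0, le_rfl, Nat.zero_le _, rfl, by simp⟩, ?_⟩
    show |(t:ℝ) - s - 0| ≤ 2 / N
    have h3 : N * ((t:ℝ) - s) ≤ 1 := by nlinarith
    rw [sub_zero, abs_of_nonneg (by linarith), le_div_iff₀ hNr]
    nlinarith

end Pool.Agent.Q215.SPN.TaskRw2
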