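import Pool.Agent.Q215.SPN.Stmts

open Filter Topology Set MeasureTheory ProbabilityTheory TopologicalSpace
open scoped NNReal unitInterval

namespace Pool.Agent.Q215.SPN.TRwCompact

theorem main : Pool.Agent.Q215.SPN.TaskRwCompact := by
  intro N x
  constructor
  · apply Set.Finite.isCompact
    have hfin : (⋃ k ∈ Iic N, ⋃ l ∈ Iic N, {y : I | (y : ℝ) = ((k : ℝ) - l) / N}).Finite := by
      refine (Set.finite_Iic N).biUnion fun k _ => (Set.finite_Iic N).biUnion fun l _ => ?_
      apply Set.Subsingleton.finite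
      intro y hy z hz
      rw [mem_setOf_eq] at hy hz
      exact Subtype.ext (hy.trans hz.symm)
    refine hfin.subset ?_
    rintro y ⟨l, k, hlk, hkN, _, hy⟩
    refine mem_biUnion (mem_Iic.2 hkN) (mem_biUnion (mem_Iic.2 (hlk.trans hkN)) hy)
  · exact ⟨0, 0, 0, le_refl _, Nat.zero_le _, rfl, by simp⟩

end Pool.Agent.Q215.SPN.TRwCompact
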