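import Pool.Agent.Q215.SPN.Stmts

/-! TaskSteps of the blueprint SPN (helper215's MP_52e894_pr), proved by helper6. -/

namespace Pool.Agent.Q215.SPN.TSteps
open Filter Topology Set MeasureTheory ProbabilityTheory TopologicalSpace
open Pool.Agent.Q215.SPN

theorem main : Pool.Agent.Q215.SPN.TaskSteps := by
  intro Ω _ P _ x hx hind h1 h2 N g
  classical
  set c : ℝ → Bool := fun r => decide (r = 1) with hc
  have hcm : Measurable c := measurable_to_bool (by
    have : c ⁻¹' {true} = {1} := by ext r; simp [hc]
    rw [this]; exact measurableSet_singleton _)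
  set E : Ω → (Fin N → Bool) := fun ω i => c (x i ω) with hE
  have hEm : Measurable E := by
    refine measurable_pi_lambda _ fun i => hcm.comp (hx i)
  -- almost sure values
  have hone : ∀ i, ∀ᵐ ω ∂P, x i ω = 1 ∨ x i ω = -1 := by
    intro i
    have hm1 : MeasurableSet {ω | x i ω = 1} := hx i (measurableSet_singleton 1)
    have hm2 : MeasurableSet {ω | x i ω = -1} := hx i (measurableSet_singleton (-1))
    have hd : Disjoint {ω | x i ω = 1} {ω | x i ω = -1} := by
      rw [Set.disjoint_left]
      intro ω ha hb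
      simp only [mem_setOf_eq] at ha hb
      rw [ha] at hb; norm_num at hb
    have hu : P ({ω | x i ω = 1} ∪ {ω | x i ω = -1}) = 1 := by
      rw [measure_union hd hm2, h1, h2, ENNReal.add_halves]
    have := (prob_compl_eq_zero_iff (hm1.union hm2)).2 hu
    rw [ae_iff]
    have hse : {a | ¬(x i a = 1 ∨ x i a = -1)} = ({ω | x i ω = 1} ∪ {ω | x i ω = -1})ᶜ := by
      ext a; rfl
    rw [hse]; exact this
  have hall : ∀ᵐ ω ∂P, ∀ i, x i ω = 1 ∨ x i ω = -1 := ae_all_iff.2 hone
  have hae : (fun ω => g (fun i => if i < N then x i ω else 0)) =ᵐ[P] fun ω => g (ext N (E ω)) := by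
    filter_upwards [hall] with ω hω
    congr 1
    funext i
    by_cases hi : i < N
    · simp only [hi, if_true, ext, dif_pos]
      rcases hω i with h | h
      · simp [hE, hc, h, sg]
      · simp only [hE, hc, h, sg]; norm_num
    · simp [hi, ext]
  have hfm : Measurable (fun e : Fin N → Bool => g (ext N e)) := measurable_of_finite _
  have hgm : AEStronglyMeasurable (fun ω => g (ext N (E ω))) P :=
    (hfm.comp hEm).aestronglyMeasurable
  refine ⟨hgm.congr hae.symm, ?_⟩
  rw [integral_congr_ae hae]
  have hmap : ∫ ω, g (ext N (E ω)) ∂P = ∫ e, g (ext N e) ∂(P.map E) :=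
    (integral_map hEm.aemeasurable hfm.aestronglyMeasurable).symm
  have : IsProbabilityMeasure (P.map E) := Measure.isProbabilityMeasure_map hEm.aemeasurable
  rw [hmap, integral_fintype (Integrable.of_finite)]
  have hval : ∀ e : Fin N → Bool, (P.map E).real {e} = (1 / 2) ^ N := by
    intro e
    rw [Measure.real, Measure.map_apply hEm (measurableSet_singleton e)]
    have hset : E ⁻¹' {e} = ⋂ i : Fin N, (fun ω => c (x i ω)) ⁻¹' {e i} := by
      ext ω
      simp only [mem_preimage, mem_singleton_iff, mem_iInter, hE]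
      exact funext_iff
    have hI : iIndepFun (fun (i : Fin N) ω => c (x i ω)) P :=
      (hind.comp (fun _ => c) (fun _ => hcm)).precomp Fin.val_injective
    have hP : P (⋂ i : Fin N, (fun ω => c (x i ω)) ⁻¹' {e i}) = ∏ i : Fin N, P ((fun ω => c (x i ω)) ⁻¹' {e i}) := by
      refine hI.meas_iInter fun i => ⟨{e i}, measurableSet_singleton _, rfl⟩
    rw [hset, hP]
    have hhalf : ∀ i : Fin N, P ((fun ω => c (x i ω)) ⁻¹' {e i}) = 1 / 2 := by
      intro i
      cases hei : e i
      · have hm1 : MeasurableSet {ω | x i ω = 1} := hx i (measurableSet_singleton 1)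
        have : (fun ω => c (x i ω)) ⁻¹' {false} = {ω | x i ω = 1}ᶜ := by
          ext ω; simp [hc]
        rw [this, prob_compl_eq_one_sub hm1, h1, one_div, ENNReal.one_sub_inv_two]
      · have : (fun ω => c (x i ω)) ⁻¹' {true} = {ω | x i ω = 1} := by
          ext ω; simp [hc]
        rw [this, h1]
    rw [Finset.prod_congr rfl fun i _ => hhalf i]
    simp
  simp_rw [hval]
  rw [EN, ← Finset.smul_sum, smul_eq_mul]
  rw [one_div, inv_pow]
  field_simp

end Pool.Agent.Q215.SPN.TSteps
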