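import Pool.Agent.Q215.SPN.Stmts

/-! Proof of `TaskUnif` (blueprint of helper215), by helper242. -/

namespace Pool.Agent.Q215.SPN.TUnif
open Filter Topology Set MeasureTheory ProbabilityTheory TopologicalSpace
open scoped NNReal unitInterval
open Pool.Agent.Q215.SPN

lemma toK_coe (A : Set I) (hA : IsCompact A) (hA' : A.Nonempty) : ((toK A : K) : Set I) = A := by
  unfold toK
  rw [dif_pos ⟨hA, hA'⟩]
  rfl

theorem main : Pool.Agent.Q215.SPN.TaskUnif := by
  intro F hF ε hε
  have hu : UniformContinuous F := CompactSpace.uniformContinuous_of_continuous hF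
  rw [Metric.uniformContinuous_iff] at hu
  obtain ⟨δ, hδ, h⟩ := hu ε hε
  refine ⟨δ / 2, by positivity, ?_⟩
  intro A C hA hA' hC hC' h1 h2
  have hd : dist (toK A) (toK C) ≤ δ / 2 := by
    rw [Metric.NonemptyCompacts.dist_eq, toK_coe A hA hA', toK_coe C hC hC']
    apply Metric.hausdorffDist_le_of_mem_dist (by positivity)
    · intro x hx
      obtain ⟨y, hy, hxy⟩ := h1 x hx
      exact ⟨y, hy, by rw [Subtype.dist_eq, Real.dist_eq]; exact hxy⟩
    · intro x hx
      obtain ⟨y, hy, hxy⟩ := h2 x hx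
      exact ⟨y, hy, by rw [Subtype.dist_eq, Real.dist_eq]; exact hxy⟩
  have h3 := h (a := toK A) (b := toK C) (by linarith)
  rw [Real.dist_eq] at h3
  exact h3.le

end Pool.Agent.Q215.SPN.TUnif
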