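import Pool.Agent.Q215.SPN.Stmts

namespace Pool.Agent.Q215.SPN.TaskUpper
open Filter Topology Set MeasureTheory ProbabilityTheory TopologicalSpace
open scoped NNReal unitInterval
open Pool.Agent.Q215.SPN

theorem main : Pool.Agent.Q215.SPN.TaskUpper := by
  intro w ε hε
  let f : I × I → ℝ := fun p => |w p.1 - w p.2|
  have hf : Continuous f := by
    have h1 : Continuous fun p : I × I => w p.1 := w.continuous.comp continuous_fst
    have h2 : Continuous fun p : I × I => w p.2 := w.continuous.comp continuous_snd
    exact (h1.sub h2).abs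
  let C : Set (I × I) := {p | p.1 ≤ p.2} ∩ ⋂ y ∈ spanSet w, {p : I × I | ε ≤ |((p.2 : ℝ) - p.1) - y|}
  have hC : IsClosed C := by
    refine IsClosed.inter (isClosed_le continuous_fst continuous_snd) ?_
    refine isClosed_biInter fun y _ => ?_
    refine isClosed_le continuous_const ?_
    fun_prop
  have hCc : IsCompact C := hC.isCompact
  have key : ∃ c > 0, ∀ p ∈ C, c ≤ f p := by
    rcases C.eq_empty_or_nonempty with h | h
    · exact ⟨1, one_pos, fun p hp => absurd hp (by rw [h]; exact Set.notMem_empty p)⟩
    · obtain ⟨p, hp, hmin⟩ := hCc.exists_isMinOn h hf.continuousOn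
      refine ⟨f p, ?_, fun q hq => hmin hq⟩
      rcases (abs_nonneg (w p.1 - w p.2)).lt_or_eq with h0 | h0
      · exact h0
      · exfalso
        have h1 : w p.1 = w p.2 := by
          have := abs_eq_zero.1 h0.symm
          linarith
        have h2 : p.1 ≤ p.2 := hp.1
        have h3 : (0 : ℝ) ≤ (p.2 : ℝ) - p.1 := by
          have : (p.1 : ℝ) ≤ p.2 := h2
          linarith
        have h4 : (p.2 : ℝ) - p.1 ≤ 1 := by
          have := p.2.2.2
          have := p.1.2.1
          linarith
        have h5 : (⟨(p.2 : ℝ) - p.1, h3, h4⟩ : I) ∈ spanSet w := ⟨p.1, p.2, h2, h1, rfl⟩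
        have h6 := hp.2
        simp only [Set.mem_iInter] at h6
        have h7 := h6 _ h5
        simp only [Set.mem_ofPred_eq, sub_self, abs_zero] at h7
        linarith
  obtain ⟨c, hc, hcC⟩ := key
  refine ⟨c / 3, by positivity, fun v hv x hx => ?_⟩
  obtain ⟨s, t, hst, hvst, hxe⟩ := hx
  by_contra hcon
  push Not at hcon
  have hmem : (s, t) ∈ C := by
    refine ⟨hst, ?_⟩
    simp only [Set.mem_iInter]
    intro y hy
    have := hcon y hy
    rw [hxe] at this
    exact this.le
  have h1 := hcC _ hmem
  have h2 : |w s - w t| ≤ c / 3 + c / 3 := by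
    have a1 : |v s - w s| ≤ c / 3 := by
      have := ContinuousMap.dist_apply_le_dist (f := v) (g := w) s
      rw [Real.dist_eq] at this
      exact this.trans hv
    have a2 : |v t - w t| ≤ c / 3 := by
      have := ContinuousMap.dist_apply_le_dist (f := v) (g := w) t
      rw [Real.dist_eq] at this
      exact this.trans hv
    have e : w s - w t = (v t - w t) - (v s - w s) := by rw [hvst]; ring
    rw [e]
    exact (abs_sub _ _).trans (by linarith)
  have h3 : c ≤ |w s - w t| := h1
  linarith

end Pool.Agent.Q215.SPN.TaskUpper
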