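import Pool.Agent.Q215.SPN.Asm
import Pool.Agent.Q215.SPN.TaskCompact
import Pool.Agent.Q215.SPN.TaskRwCompact
import Pool.Agent.Q215.SPN.TaskUnif
import Pool.Agent.Q215.SPN.TaskUpper
import Pool.Agent.Q215.SPN.TaskLower1
import Pool.Agent.Q215.SPN.TaskLower
import Pool.Agent.Q215.SPN.TaskGrid
import Pool.Agent.Q215.SPN.TaskRw1
import Pool.Agent.Q215.SPN.TaskRw2
import Pool.Agent.Q215.SPN.TaskPLdist
import Pool.Agent.Q215.SPN.TaskPLapprox
import Pool.Agent.Q215.SPN.TaskBlocks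
import Pool.Agent.Q215.SPN.CardF
import Pool.Agent.Q215.SPN.TaskFourth
import Pool.Agent.Q215.SPN.TaskMaxIneq
import Pool.Agent.Q215.SPN.CloseF
import Pool.Agent.Q215.SPN.TaskCompare
import Pool.Agent.Q215.SPN.TaskCos
import Pool.Agent.Q215.SPN.TaskCosLim
import Pool.Agent.Q215.SPN.TaskCLT
import Pool.Agent.Q215.SPN.TaskIncLaw
import Pool.Agent.Q215.SPN.TaskBside
import Pool.Agent.Q215.SPN.TaskDonsker
import Pool.Agent.Q215.SPN.TaskGauss
import Pool.Agent.Q215.SPN.TaskTie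
import Pool.Agent.Q215.SPN.TaskAeNoTie
import Pool.Agent.Q215.SPN.TaskReg
import Pool.Agent.Q215.SPN.TaskMap
import Pool.Agent.Q215.SPN.TaskSteps

/-! Assembly of the lemmas (proved by many seats) -/

namespace Pool.Agent.Q215.SPN.All
open Filter Topology Set MeasureTheory ProbabilityTheory TopologicalSpace
open scoped NNReal unitInterval

theorem compact : Pool.Agent.Q215.SPN.TaskCompact := Pool.Agent.Q215.SPN.TCompact.main 
theorem rwCompact : Pool.Agent.Q215.SPN.TaskRwCompact := Pool.Agent.Q215.SPN.TRwCompact.main 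
theorem unif : Pool.Agent.Q215.SPN.TaskUnif := Pool.Agent.Q215.SPN.TUnif.main 
theorem upper : Pool.Agent.Q215.SPN.TaskUpper := Pool.Agent.Q215.SPN.TaskUpper.main 
theorem lower1 : Pool.Agent.Q215.SPN.TaskLower1 := Pool.Agent.Q215.SPN.TLower1.main 
theorem lower : Pool.Agent.Q215.SPN.TaskLower := Pool.Agent.Q215.SPN.TLower.main lower1 compact
theorem grid : Pool.Agent.Q215.SPN.TaskGrid := Pool.Agent.Q215.SPN.TGrid.main 
theorem rw1 : Pool.Agent.Q215.SPN.TaskRw1 := Pool.Agent.Q215.SPN.TRw1.main grid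
theorem rw2 : Pool.Agent.Q215.SPN.TaskRw2 := Pool.Agent.Q215.SPN.TaskRw2.main grid
theorem pLdist : Pool.Agent.Q215.SPN.TaskPLdist := Pool.Agent.Q215.SPN.TPLdist.main 
theorem pLapprox : Pool.Agent.Q215.SPN.TaskPLapprox := Pool.Agent.Q215.SPN.TaskPLapprox.main 
theorem blocks : Pool.Agent.Q215.SPN.TaskBlocks := Pool.Agent.Q215.SPN.TaskBlocks.main 
theorem card : Pool.Agent.Q215.SPN.TaskCard := Pool.Agent.Q215.SPN.CardF.main 
theorem fourth : Pool.Agent.Q215.SPN.TaskFourth := Pool.Agent.Q215.SPN.TaskFourth.main 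
theorem maxIneq : Pool.Agent.Q215.SPN.TaskMaxIneq := Pool.Agent.Q215.SPN.TMaxIneq.main fourth
theorem close : Pool.Agent.Q215.SPN.TaskClose := Pool.Agent.Q215.SPN.CloseF.main blocks card maxIneq
theorem compare : Pool.Agent.Q215.SPN.TaskCompare := Pool.Agent.Q215.SPN.TCompare.main close
theorem cos : Pool.Agent.Q215.SPN.TaskCos := Pool.Agent.Q215.SPN.TaskCos.main 
theorem cosLim : Pool.Agent.Q215.SPN.TaskCosLim := Pool.Agent.Q215.SPN.TCosLim.main card
theorem cLT : Pool.Agent.Q215.SPN.TaskCLT := Pool.Agent.Q215.SPN.taskCLT cos cosLim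
theorem incLaw : Pool.Agent.Q215.SPN.TaskIncLaw := Pool.Agent.Q215.SPN.TIncLaw.main 
theorem bside : Pool.Agent.Q215.SPN.TaskBside := Pool.Agent.Q215.SPN.TBside.main pLdist pLapprox incLaw
theorem donsker : Pool.Agent.Q215.SPN.TaskDonsker := Pool.Agent.Q215.SPN.TaskDonsker.main compare pLdist cLT bside
theorem gauss : Pool.Agent.Q215.SPN.TaskGauss := Pool.Agent.Q215.SPN.TaskGauss.main 
theorem tie : Pool.Agent.Q215.SPN.TaskTie := Pool.Agent.Q215.SPN.TTie.main gauss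
theorem aeNoTie : Pool.Agent.Q215.SPN.TaskAeNoTie := Pool.Agent.Q215.SPN.TAeNoTie.main tie
theorem reg : Pool.Agent.Q215.SPN.TaskReg := Pool.Agent.Q215.SPN.TReg.main 
theorem map : Pool.Agent.Q215.SPN.TaskMap := Pool.Agent.Q215.SPN.TMap.main donsker reg bside
theorem steps : Pool.Agent.Q215.SPN.TaskSteps := Pool.Agent.Q215.SPN.TSteps.main 

theorem final {Ω Ω' : Type} [MeasurableSpace Ω] (P : Measure Ω) (B : ℝ≥0 → Ω → ℝ)
    (hB : IsBrownianReal B P) [MeasurableSpace Ω'] (P' : Measure Ω') [IsProbabilityMeasure P']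
    (x : ℕ → Ω' → ℝ) (hm : ∀ i, Measurable (x i)) (hind : iIndepFun x P')
    (hx1 : ∀ i, P' {ω | x i ω = 1} = 1 / 2) (hx2 : ∀ i, P' {ω | x i ω = -1} = 1 / 2)
    (F : K → ℝ) (hF : Continuous F) :
    AEStronglyMeasurable (fun ω => F (toK (spanSet (rst fun t => B t ω)))) P ∧
    (∀ N : ℕ, AEStronglyMeasurable (fun ω => F (toK (rwSpan N fun i => x i ω))) P') ∧
    Tendsto (fun N : ℕ => ∫ ω, F (toK (rwSpan N fun i => x i ω)) ∂P') atTop
      (𝓝 (∫ ω, F (toK (spanSet (rst fun t => B t ω))) ∂P)) :=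
  Asm.final compact rwCompact unif upper lower rw1 rw2 aeNoTie map steps P B hB P' x hm hind hx1 hx2 F hF

end Pool.Agent.Q215.SPN.All
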