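import Pool.Agent.Q215.SPN.Stmts

namespace Pool.Agent.Q215.SPN.Asm
open Filter Topology Set MeasureTheory ProbabilityTheory TopologicalSpace
open scoped NNReal unitInterval

theorem contAt (hC : TaskCompact) (hU : TaskUnif) (hUp : TaskUpper) (hLo : TaskLower) (F : K → ℝ)
    (hF : Continuous F) (w : C(I, ℝ)) (hw : NoTie w) :
    ContinuousAt (fun w => F (toK (spanSet w))) w := by
  rw [Metric.continuousAt_iff]
  intro ε hε
  obtain ⟨η, hη, h1⟩ := hU F hF (ε / 2) (by linarith)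
  obtain ⟨δ1, hδ1, h2⟩ := hUp w η hη
  obtain ⟨δ2, hδ2, h3⟩ := hLo w hw η hη
  refine ⟨min δ1 δ2, lt_min hδ1 hδ2, fun v hv => ?_⟩
  have hv1 : dist v w ≤ δ1 := hv.le.trans (min_le_left _ _)
  have hv2 : dist v w ≤ δ2 := hv.le.trans (min_le_right _ _)
  have := h1 (spanSet v) (spanSet w) (hC v).1 (hC v).2 (hC w).1 (hC w).2 (h2 v hv1) (h3 v hv2)
  rw [Real.dist_eq]
  linarith

theorem rwNear (hC : TaskCompact) (hRC : TaskRwCompact) (hU : TaskUnif) (h1 : TaskRw1) (h2 : TaskRw2)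
    (F : K → ℝ) (hF : Continuous F) (ε : ℝ) (hε : 0 < ε) :
    ∀ᶠ N : ℕ in atTop, ∀ e : Fin N → Bool,
      |F (toK (rwSpan N (ext N e))) - F (toK (spanSet (W N e)))| ≤ ε := by
  obtain ⟨η, hη, h⟩ := hU F hF ε hε
  have ht : Tendsto (fun N : ℕ => 2 / (N : ℝ)) atTop (𝓝 0) :=
    tendsto_const_nhds.div_atTop tendsto_natCast_atTop_atTop
  have e1 : ∀ᶠ N : ℕ in atTop, 2 / (N : ℝ) ≤ η :=
    (ht.eventually (gt_mem_nhds hη)).mono fun N hN => le_of_lt hN
  filter_upwards [e1, eventually_gt_atTop 0] with N hN hN0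
  intro e
  refine h _ _ (hRC N _).1 (hRC N _).2 (hC _).1 (hC _).2 ?_ ?_
  · intro x hx
    exact ⟨x, h1 N e hN0 hx, by simpa using hη.le⟩
  · intro x hx
    obtain ⟨y, hy, hxy⟩ := h2 N e hN0 x hx
    exact ⟨y, hy, hxy.trans hN⟩

theorem EN_near (N : ℕ) (g g' : (Fin N → Bool) → ℝ) (ε : ℝ) (h : ∀ e, |g e - g' e| ≤ ε) :
    |EN N g - EN N g'| ≤ ε := by
  unfold EN
  rw [← sub_div, ← Finset.sum_sub_distrib, abs_div, abs_of_pos (by positivity : (0 : ℝ) < 2 ^ N),
    div_le_iff₀ (by positivity)]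
  calc |∑ e, (g e - g' e)| ≤ ∑ e, |g e - g' e| := Finset.abs_sum_le_sum_abs _ _
    _ ≤ ∑ _e : Fin N → Bool, ε := Finset.sum_le_sum fun e _ => h e
    _ = ε * 2 ^ N := by simp [mul_comm]

theorem rwSpan_congr (N : ℕ) (x y : ℕ → ℝ) (h : ∀ i < N, x i = y i) : rwSpan N x = rwSpan N y := by
  have hw : ∀ k ≤ N, walk x k = walk y k := by
    intro k hk
    unfold walk
    exact Finset.sum_congr rfl fun i hi => h i (lt_of_lt_of_le (Finset.mem_range.1 hi) hk)
  ext z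
  constructor
  · rintro ⟨l, k, hlk, hk, he, hz⟩
    exact ⟨l, k, hlk, hk, by rw [← hw k hk, ← hw l (hlk.trans hk)]; exact he, hz⟩
  · rintro ⟨l, k, hlk, hk, he, hz⟩
    exact ⟨l, k, hlk, hk, by rw [hw k hk, hw l (hlk.trans hk)]; exact he, hz⟩

theorem bounded (F : K → ℝ) (hF : Continuous F) : ∃ M, ∀ k, |F k| ≤ M := by
  obtain ⟨M, hM⟩ := (isCompact_univ (X := K)).exists_bound_of_continuousOn hF.continuousOn
  exact ⟨M, fun k => by simpa using hM k (mem_univ k)⟩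

theorem final (hC : TaskCompact) (hRC : TaskRwCompact) (hU : TaskUnif) (hUp : TaskUpper)
    (hLo : TaskLower) (h1 : TaskRw1) (h2 : TaskRw2) (hAe : TaskAeNoTie) (hMap : TaskMap)
    (hSt : TaskSteps) {Ω Ω' : Type} [MeasurableSpace Ω] (P : Measure Ω) (B : ℝ≥0 → Ω → ℝ)
    (hB : IsBrownianReal B P) [MeasurableSpace Ω'] (P' : Measure Ω') [IsProbabilityMeasure P']
    (x : ℕ → Ω' → ℝ) (hm : ∀ i, Measurable (x i)) (hind : iIndepFun x P')
    (hx1 : ∀ i, P' {ω | x i ω = 1} = 1 / 2) (hx2 : ∀ i, P' {ω | x i ω = -1} = 1 / 2)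
    (F : K → ℝ) (hF : Continuous F) :
    AEStronglyMeasurable (fun ω => F (toK (spanSet (rst fun t => B t ω)))) P ∧
    (∀ N : ℕ, AEStronglyMeasurable (fun ω => F (toK (rwSpan N fun i => x i ω))) P') ∧
    Tendsto (fun N : ℕ => ∫ ω, F (toK (rwSpan N fun i => x i ω)) ∂P') atTop
      (𝓝 (∫ ω, F (toK (spanSet (rst fun t => B t ω))) ∂P)) := by
  obtain ⟨M, hM⟩ := bounded F hF
  have hmap := hMap P B hB (fun w => F (toK (spanSet w))) M (fun w => hM _)
    ((hAe P B hB).mono fun ω hω => contAt hC hU hUp hLo F hF _ hω)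
  have hcongr : ∀ (N : ℕ) (ω : Ω'), rwSpan N (fun i => x i ω) =
      rwSpan N (fun i => if i < N then x i ω else 0) := by
    intro N ω
    refine rwSpan_congr N _ _ fun i hi => ?_
    rw [if_pos hi]
  have hst := fun N : ℕ => hSt P' x hm hind hx1 hx2 N (fun y => F (toK (rwSpan N y)))
  refine ⟨hmap.1, fun N => ?_, ?_⟩
  · have := (hst N).1
    refine this.congr (Eventually.of_forall fun ω => ?_)
    simp only
    rw [hcongr]
  · have e1 : (fun N : ℕ => ∫ ω, F (toK (rwSpan N fun i => x i ω)) ∂P') =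
        fun N : ℕ => EN N (fun e => F (toK (rwSpan N (ext N e)))) := by
      funext N
      rw [← (hst N).2]
      refine integral_congr_ae (Eventually.of_forall fun ω => ?_)
      simp only
      rw [hcongr]
    rw [e1]
    have hlim := hmap.2
    rw [Metric.tendsto_nhds] at hlim ⊢
    intro ε hε
    filter_upwards [hlim (ε / 2) (by linarith),
      rwNear hC hRC hU h1 h2 F hF (ε / 3) (by linarith)] with N hN1 hN2
    have h3 := EN_near N _ _ _ hN2
    rw [Real.dist_eq] at hN1 ⊢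
    have := abs_sub_le (EN N (fun e => F (toK (rwSpan N (ext N e)))))
      (EN N (fun e => F (toK (spanSet (W N e))))) (∫ ω, F (toK (spanSet (rst fun t => B t ω))) ∂P)
    linarith

end Pool.Agent.Q215.SPN.Asm
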