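import Pool.Agent.Q215.SPN.Stmts

namespace Pool.Agent.Q215.SPN.Meas
open Filter Topology Set MeasureTheory TopologicalSpace
open scoped unitInterval

theorem aem {Ω : Type} [MeasurableSpace Ω] (P : Measure Ω) (X : Ω → K)
    (h : ∀ F : K → ℝ, Continuous F → AEStronglyMeasurable (fun ω => F (X ω)) P) :
    @AEMeasurable Ω K (borel K) _ X P := by
  letI : MeasurableSpace K := borel K
  haveI : BorelSpace K := ⟨rfl⟩
  let φ : K → ℕ → ℝ := fun k n => dist k (denseSeq K n)
  have hφ : Continuous φ := continuous_pi fun n => continuous_id.dist continuous_const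
  have hinj : Function.Injective φ := by
    intro k k' hk
    by_contra hne
    have hpos : 0 < dist k k' := dist_pos.2 hne
    obtain ⟨n, h2⟩ := (denseRange_denseSeq K).exists_dist_lt k (half_pos hpos)
    have h1 : dist k (denseSeq K n) = dist k' (denseSeq K n) := congrFun hk n
    have h3 := dist_triangle k (denseSeq K n) k'
    rw [dist_comm (denseSeq K n) k'] at h3
    linarith
  have hemb : MeasurableEmbedding φ := (hφ.isClosedEmbedding hinj).measurableEmbedding
  have hc : AEMeasurable (φ ∘ X) P := by
    rw [aemeasurable_pi_iff]
    intro n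
    exact (h (fun k => dist k (denseSeq K n)) (continuous_id.dist continuous_const)).aemeasurable
  exact (hemb.aemeasurable_comp_iff).1 hc

end Pool.Agent.Q215.SPN.Meas
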