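import Pool.Agent.Q215.SPN.Asm

/-! Bridge between the definitions of the result file and those of the blueprint. -/

namespace Pool.Agent.Q215.SPN.Res0
open Filter Topology Set MeasureTheory ProbabilityTheory TopologicalSpace
open scoped NNReal unitInterval

/-- `Sp^{[0,1]}(1)` of the path `b` -/
def brownianSpans (b : ℝ≥0 → ℝ) : Set I :=
  {x | ∃ s t : ℝ≥0, s ≤ t ∧ t ≤ 1 ∧ b s = b t ∧ (x : ℝ) = t - s}

/-- `(1/N) Sp^N` of the walk with the steps `x 0, x 1, ...` -/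
def walkSpans (N : ℕ) (x : ℕ → ℝ) : Set I :=
  {y | ∃ l k : ℕ, l ≤ k ∧ k ≤ N ∧ ∑ i ∈ Finset.range k, x i = ∑ i ∈ Finset.range l, x i ∧
    (y : ℝ) = ((k : ℝ) - l) / N}

theorem walkSpans_eq (N : ℕ) (x : ℕ → ℝ) : walkSpans N x = rwSpan N x := rfl

theorem brownianSpans_eq (b : ℝ≥0 → ℝ) (hb : Continuous b) :
    brownianSpans b = spanSet (rst b) := by
  have hr : ∀ t : I, rst b t = b ⟨t, t.2.1⟩ := by
    intro t
    unfold rst
    rw [dif_pos hb]
    rfl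
  ext x
  constructor
  · rintro ⟨s, t, hst, ht, he, hx⟩
    have hs1 : (s : ℝ) ≤ 1 := by exact_mod_cast hst.trans ht
    have ht1 : (t : ℝ) ≤ 1 := by exact_mod_cast ht
    refine ⟨⟨s, s.2, hs1⟩, ⟨t, t.2, ht1⟩, ?_, ?_, hx⟩
    · exact Subtype.mk_le_mk.2 (by exact_mod_cast hst)
    · rw [hr, hr]
      exact he
  · rintro ⟨s, t, hst, he, hx⟩
    refine ⟨⟨s, s.2.1⟩, ⟨t, t.2.1⟩, ?_, ?_, ?_, hx⟩
    · exact hst
    · exact_mod_cast t.2.2
    · rw [hr, hr] at he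
      exact he

end Pool.Agent.Q215.SPN.Res0
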