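import Pool.Agent.Q215.SPN.Stmts

/-! `TaskBlocks`: comparison of the walk path with its block path. -/

namespace Pool.Agent.Q215.SPN.TaskBlocks

open Pool.Agent.Q215.SPN
open Filter Topology Set MeasureTheory ProbabilityTheory TopologicalSpace
open scoped NNReal unitInterval

theorem clamp_one {y : ℝ} (h : 1 ≤ y) : clamp y = 1 := by
  unfold clamp
  rw [min_eq_left h, max_eq_right zero_le_one]

theorem clamp_zero {y : ℝ} (h : y ≤ 0) : clamp y = 0 := by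
  unfold clamp
  rw [min_eq_right (h.trans zero_le_one), max_eq_left h]

theorem clamp_mid {y : ℝ} (h : 0 ≤ y) (h1 : y ≤ 1) : clamp y = y := by
  unfold clamp
  rw [min_eq_right h1, max_eq_right h]

theorem clampN (x : ℝ) (hx : 0 ≤ x) (j : ℕ) :
    clamp (x - j) = (if j < ⌈x⌉₊ then 1 else 0) - (if j + 1 = ⌈x⌉₊ then ((⌈x⌉₊ : ℝ) - x) else 0) := by
  by_cases h : j < ⌈x⌉₊
  · have h1 : (j : ℝ) < x := Nat.lt_ceil.1 h
    by_cases h2 : j + 1 = ⌈x⌉₊
    · have h3 : x ≤ (j : ℝ) + 1 := by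
        have := Nat.le_ceil x
        rw [← h2] at this
        exact_mod_cast this
      rw [if_pos h, if_pos h2, clamp_mid (by linarith) (by linarith), ← h2]
      push_cast
      ring
    · have h3 : ((j + 1 : ℕ) : ℝ) < x := Nat.lt_ceil.1 (by omega)
      push_cast at h3
      rw [if_pos h, if_neg h2, clamp_one (by linarith)]
      ring
  · have h1 : x ≤ (j : ℝ) := Nat.ceil_le.1 (not_lt.1 h)
    rw [if_neg h, if_neg (by omega), clamp_zero (by linarith)]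
    ring

theorem clampM (x : ℝ) (hx : 0 ≤ x) (b : ℕ) :
    clamp (x - b) = (if b < ⌊x⌋₊ then 1 else 0) + (if b = ⌊x⌋₊ then (x - (⌊x⌋₊ : ℝ)) else 0) := by
  have h0 := Nat.floor_le hx
  have h0' := Nat.lt_floor_add_one x
  rcases lt_trichotomy b ⌊x⌋₊ with h | h | h
  · have h1 : ((b + 1 : ℕ) : ℝ) ≤ (⌊x⌋₊ : ℝ) := by exact_mod_cast h
    push_cast at h1
    rw [if_pos h, if_neg h.ne, clamp_one (by linarith)]
    ring
  · rw [if_neg h.not_lt, if_pos h, h, clamp_mid (by linarith) (by linarith)]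
    ring
  · have h1 : ((⌊x⌋₊ + 1 : ℕ) : ℝ) ≤ (b : ℝ) := by exact_mod_cast h
    push_cast at h1
    rw [if_neg (by omega), if_neg (by omega), clamp_zero (by linarith)]
    ring

theorem sum_one {N : ℕ} (f : Fin N → ℝ) (δ : ℝ) (hδ0 : 0 ≤ δ) (hf : ∀ j, |f j| ≤ 1) (k : ℕ) :
    |∑ j : Fin N, (if (j : ℕ) + 1 = k then f j * δ else 0)| ≤ δ := by
  by_cases h : ∃ j0 : Fin N, (j0 : ℕ) + 1 = k
  · obtain ⟨j0, hj0⟩ := h
    have e : ∀ j : Fin N, (if (j : ℕ) + 1 = k then f j * δ else 0) =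
        if j = j0 then f j * δ else 0 := by
      intro j
      by_cases hj : j = j0
      · rw [if_pos hj, if_pos (by rw [hj]; exact hj0)]
      · rw [if_neg hj, if_neg]
        intro hh
        apply hj
        apply Fin.ext
        omega
    rw [Finset.sum_congr rfl fun j _ => e j, Finset.sum_ite_eq' Finset.univ j0,
      if_pos (Finset.mem_univ _), abs_mul, abs_of_nonneg hδ0]
    have := mul_le_mul_of_nonneg_right (hf j0) hδ0
    linarith
  · push Not at h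
    rw [Finset.sum_eq_zero fun j _ => if_neg (h j), abs_zero]
    exact hδ0

theorem sg_abs (b : Bool) : |sg b| = 1 := by
  unfold sg
  cases b <;> simp

theorem blockPath (m N : ℕ) (e : Fin N → Bool) (hm : 0 < m) (hN : 0 < N) (t : I) :
    PL m (D m N e) t = ∑ j : Fin N, sg (e j) / √N * clamp (m * (t : ℝ) - ((j : ℕ) * m / N : ℕ)) := by
  show ∑ i : Fin m, D m N e i * clamp (m * (t : ℝ) - i) = _
  unfold D
  simp only [div_mul_eq_mul_div, ← Finset.sum_div, Finset.sum_mul]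
  congr 1
  rw [Finset.sum_comm]
  refine Finset.sum_congr rfl fun j _ => ?_
  have hb : (j : ℕ) * m / N < m := by
    rw [Nat.div_lt_iff_lt_mul hN, mul_comm]
    exact Nat.mul_lt_mul_of_pos_left j.2 hm
  have e1 : ∀ i : Fin m, (if (j : ℕ) * m / N = (i : ℕ) then sg (e j) else 0) *
      clamp (m * (t : ℝ) - (i : ℕ)) =
      if i = ⟨(j : ℕ) * m / N, hb⟩ then sg (e j) * clamp (m * (t : ℝ) - (i : ℕ)) else 0 := by
    intro i
    by_cases h : (j : ℕ) * m / N = (i : ℕ)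
    · rw [if_pos h, if_pos (Fin.ext h.symm)]
    · rw [if_neg h, if_neg (fun h' => h (by rw [h'])), zero_mul]
  rw [Finset.sum_congr rfl fun i _ => e1 i, Finset.sum_ite_eq' Finset.univ,
    if_pos (Finset.mem_univ _)]

theorem main : Pool.Agent.Q215.SPN.TaskBlocks := by
  intro m N e lam hm hN hlam H
  have hNr : (0 : ℝ) < N := by exact_mod_cast hN
  have hmr : (0 : ℝ) < m := by exact_mod_cast hm
  have hsN : 0 < √(N : ℝ) := Real.sqrt_pos.2 hNr
  rw [ContinuousMap.dist_le (by positivity)]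
  intro t
  have ht0 : 0 ≤ (t : ℝ) := t.2.1
  have ht1 : (t : ℝ) ≤ 1 := t.2.2
  rw [Real.dist_eq, blockPath m N e hm hN t]
  have hW : W N e t = ∑ j : Fin N, sg (e j) / √N * clamp (N * (t : ℝ) - (j : ℕ)) := rfl
  rw [hW, ← Finset.sum_sub_distrib]
  obtain ⟨x, hx⟩ : ∃ x : ℝ, x = N * (t : ℝ) := ⟨_, rfl⟩
  obtain ⟨y, hy⟩ : ∃ y : ℝ, y = m * (t : ℝ) := ⟨_, rfl⟩
  have hx0 : 0 ≤ x := by rw [hx]; positivity
  have hy0 : 0 ≤ y := by rw [hy]; positivity
  have hk1 : ⌈x⌉₊ ≤ N := by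
    rw [Nat.ceil_le, hx]
    nlinarith
  have hyx : y * N = x * m := by rw [hx, hy]; ring
  have f0 := Nat.floor_le hy0
  have f1 := Nat.lt_floor_add_one y
  have c0 := Nat.le_ceil x
  have c1 := Nat.ceil_lt_add_one hx0
  obtain ⟨θ, hθ⟩ : ∃ θ : ℝ, θ = y - (⌊y⌋₊ : ℝ) := ⟨_, rfl⟩
  obtain ⟨δ, hδ⟩ : ∃ δ : ℝ, δ = (⌈x⌉₊ : ℝ) - x := ⟨_, rfl⟩
  have hθ0 : 0 ≤ θ := by rw [hθ]; linarith
  have hθ1 : θ ≤ 1 := by rw [hθ]; linarith
  have hδ0 : 0 ≤ δ := by rw [hδ]; linarith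
  have hδ1 : δ ≤ 1 := by rw [hδ]; linarith
  have key : ∀ j : Fin N, sg (e j) / √N * clamp (N * (t : ℝ) - (j : ℕ)) -
      sg (e j) / √N * clamp (m * (t : ℝ) - ((j : ℕ) * m / N : ℕ)) =
      ((if ((j : ℕ) * m / N = ⌊y⌋₊ ∧ (j : ℕ) < ⌈x⌉₊) then sg (e j) else 0) -
      θ * (if ((j : ℕ) * m / N = ⌊y⌋₊ ∧ (j : ℕ) < N) then sg (e j) else 0) -
      (if (j : ℕ) + 1 = ⌈x⌉₊ then sg (e j) * δ else 0)) / √N := by
    intro j
    rw [← hx, ← hy, clampN x hx0, clampM y hy0, ← hθ, ← hδ]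
    obtain ⟨b, hb⟩ : ∃ b : ℕ, b = (j : ℕ) * m / N := ⟨_, rfl⟩
    rw [← hb]
    have b1 : b * N ≤ (j : ℕ) * m := by rw [hb]; exact Nat.div_mul_le_self _ _
    have b2 : (j : ℕ) * m < (b + 1) * N := by
      rw [hb]
      exact Nat.lt_mul_of_div_lt (Nat.lt_succ_self _) hN
    have b1' : (b : ℝ) * N ≤ (j : ℕ) * m := by exact_mod_cast b1
    have b2' : ((j : ℕ) : ℝ) * m < (b + 1) * N := by exact_mod_cast b2
    have hjN : (j : ℕ) < N := j.2
    rcases lt_trichotomy b ⌊y⌋₊ with h | h | h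
    · have h1 : ((b + 1 : ℕ) : ℝ) ≤ (⌊y⌋₊ : ℝ) := by exact_mod_cast h
      push_cast at h1
      have h2 : (j : ℕ) < ⌈x⌉₊ := by
        rw [Nat.lt_ceil]
        have h3 : ((j : ℕ) : ℝ) * m < x * m := by
          rw [← hyx]
          calc ((j : ℕ) : ℝ) * m < (b + 1) * N := b2'
            _ ≤ y * N := by
              apply mul_le_mul_of_nonneg_right _ hNr.le
              linarith
        exact lt_of_mul_lt_mul_right h3 hmr.le
      simp only [h, h2, h.ne, false_and, if_true, if_false]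
      by_cases h4 : (j : ℕ) + 1 = ⌈x⌉₊
      · simp only [h4, if_true]
        ring
      · simp only [h4, if_false]
        ring
    · rw [h]
      by_cases h2 : (j : ℕ) < ⌈x⌉₊
      · by_cases h4 : (j : ℕ) + 1 = ⌈x⌉₊
        · simp only [lt_irrefl, hjN, h2, h4, true_and, if_true, if_false]
          ring
        · simp only [lt_irrefl, hjN, h2, h4, true_and, if_true, if_false]
          ring
      · have h4 : ¬ (j : ℕ) + 1 = ⌈x⌉₊ := by omega
        simp only [lt_irrefl, hjN, h2, h4, true_and, if_true, if_false]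
        ring
    · have h1 : ((⌊y⌋₊ + 1 : ℕ) : ℝ) ≤ (b : ℝ) := by exact_mod_cast h
      push_cast at h1
      have h2 : ¬ (j : ℕ) < ⌈x⌉₊ := by
        rw [not_lt, Nat.ceil_le]
        have h3 : x * m ≤ ((j : ℕ) : ℝ) * m := by
          rw [← hyx]
          refine le_trans ?_ b1'
          apply mul_le_mul_of_nonneg_right _ hNr.le
          linarith
        exact le_of_mul_le_mul_right h3 hmr
      have h4 : ¬ (j : ℕ) + 1 = ⌈x⌉₊ := by omega
      simp only [h.not_gt, h.ne', h2, h4, false_and, if_false]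
      ring
  rw [Finset.sum_congr rfl fun j _ => key j, ← Finset.sum_div, Finset.sum_sub_distrib,
    Finset.sum_sub_distrib, ← Finset.mul_sum, abs_div, abs_of_pos hsN, div_le_iff₀ hsN]
  have s1 := H ⌊y⌋₊ ⌈x⌉₊ hk1
  have s2 := H ⌊y⌋₊ N le_rfl
  have s3 := sum_one (fun j : Fin N => sg (e j)) δ hδ0 (fun j => (sg_abs _).le) ⌈x⌉₊
  obtain ⟨A, hA⟩ : ∃ A : ℝ, A = ∑ j : Fin N,
    (if ((j : ℕ) * m / N = ⌊y⌋₊ ∧ (j : ℕ) < ⌈x⌉₊) then sg (e j) else 0) := ⟨_, rfl⟩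
  obtain ⟨B, hB⟩ : ∃ B : ℝ, B = ∑ j : Fin N,
    (if ((j : ℕ) * m / N = ⌊y⌋₊ ∧ (j : ℕ) < N) then sg (e j) else 0) := ⟨_, rfl⟩
  obtain ⟨C, hC⟩ : ∃ C : ℝ, C = ∑ j : Fin N,
    (if (j : ℕ) + 1 = ⌈x⌉₊ then sg (e j) * δ else 0) := ⟨_, rfl⟩
  rw [← hA] at s1 ⊢
  rw [← hB] at s2 ⊢
  rw [← hC] at s3 ⊢
  have e1 : (2 * lam + 1 / √(N : ℝ)) * √N = 2 * (lam * √N) + 1 := by
    field_simp
  rw [e1]
  have e2 : |θ * B| ≤ lam * √N := by
    rw [abs_mul, abs_of_nonneg hθ0]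
    calc θ * |B| ≤ 1 * |B| := mul_le_mul_of_nonneg_right hθ1 (abs_nonneg _)
      _ = |B| := one_mul _
      _ ≤ _ := s2
  have e3 : |A - θ * B - C| ≤ |A| + |θ * B| + |C| :=
    (abs_sub _ _).trans (by gcongr; exact abs_sub _ _)
  linarith

end Pool.Agent.Q215.SPN.TaskBlocks
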