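import Pool.Agent.Q215.SPN.Stmts

set_option autoImplicit false

open Filter Topology Set MeasureTheory ProbabilityTheory TopologicalSpace
open scoped NNReal unitInterval

namespace Pool.Agent.Q215.SPN.TaskClose

open Pool.Agent.Q215.SPN

theorem main (hB : TaskBlocks) (hC : TaskCard) (hM : TaskMaxIneq) : Pool.Agent.Q215.SPN.TaskClose := by
  intro m N lam hm hmN hl
  have hN : 0 < N := lt_of_lt_of_le hm hmN
  set J : ℕ → Finset (Fin N) := fun i => Finset.univ.filter fun j : Fin N => (j : ℕ) * m / N = i with hJ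
  have hNR : (0 : ℝ) < N := by exact_mod_cast hN
  have hmR : (0 : ℝ) < m := by exact_mod_cast hm
  have hmNR : (m : ℝ) ≤ N := by exact_mod_cast hmN
  have hsN : 0 < √(N : ℝ) := Real.sqrt_pos.2 hNR
  have ha : 0 < lam * √N := mul_pos hl hsN
  have hsum : ∀ (e : Fin N → Bool) (i k : ℕ),
      (∑ j : Fin N, if ((j : ℕ) * m / N = i ∧ (j : ℕ) < k) then sg (e j) else 0) =
        ∑ j ∈ J i, if (j : ℕ) < k then sg (e j) else 0 := by
    intro e i k
    simp only [hJ, Finset.sum_filter]
    refine Finset.sum_congr rfl fun j _ => ?_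
    by_cases h1 : (j : ℕ) * m / N = i <;> by_cases h2 : (j : ℕ) < k <;> simp [h1, h2]
  have hpt : ∀ e : Fin N → Bool,
      (if 2 * lam + 1 / √N < dist (W N e) (PL m (D m N e)) then (1 : ℝ) else 0) ≤
        ∑ i ∈ Finset.range m,
          (if ∃ k ≤ N, lam * √N < |∑ j ∈ J i, if (j : ℕ) < k then sg (e j) else 0| then (1 : ℝ) else 0) := by
    intro e
    have hnn : ∀ i ∈ Finset.range m, (0 : ℝ) ≤
        (if ∃ k ≤ N, lam * √N < |∑ j ∈ J i, if (j : ℕ) < k then sg (e j) else 0| then (1 : ℝ) else 0) := by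
      intro i _
      split_ifs <;> norm_num
    by_cases h : 2 * lam + 1 / √N < dist (W N e) (PL m (D m N e))
    · rw [if_pos h]
      by_contra hcon
      rw [not_le] at hcon
      refine absurd h (not_lt.2 ?_)
      refine hB m N e lam hm hN hl.le fun i k hk => ?_
      rw [hsum]
      by_contra hgt
      rw [not_le] at hgt
      have hi : i < m := by
        by_contra hi
        rw [not_lt] at hi
        have h3 : J i = ∅ := by
          rw [hJ, Finset.filter_eq_empty_iff]
          intro j _ h4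
          have h5 : (j : ℕ) * m / N < m := by
            rw [Nat.div_lt_iff_lt_mul hN, mul_comm m N]
            exact Nat.mul_lt_mul_of_pos_right j.2 hm
          omega
        rw [h3] at hgt
        simp only [Finset.sum_empty, abs_zero] at hgt
        linarith
      have h6 := Finset.single_le_sum hnn (Finset.mem_range.2 hi)
      rw [if_pos ⟨k, hk, hgt⟩] at h6
      linarith
    · rw [if_neg h]
      exact Finset.sum_nonneg hnn
  have h1 : EN N (fun e => if 2 * lam + 1 / √N < dist (W N e) (PL m (D m N e)) then 1 else 0) ≤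
      ∑ i ∈ Finset.range m, EN N (fun e =>
        if ∃ k ≤ N, lam * √N < |∑ j ∈ J i, if (j : ℕ) < k then sg (e j) else 0| then 1 else 0) := by
    unfold EN
    rw [← Finset.sum_div, Finset.sum_comm]
    exact div_le_div_of_nonneg_right (Finset.sum_le_sum fun e _ => hpt e) (by positivity)
  have h2 : ∀ i ∈ Finset.range m, EN N (fun e =>
        if ∃ k ≤ N, lam * √N < |∑ j ∈ J i, if (j : ℕ) < k then sg (e j) else 0| then 1 else 0) ≤
      12 / ((m : ℝ) ^ 2 * lam ^ 4) := by
    intro i hi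
    refine (hM N (J i) (lam * √N) ha).trans ?_
    have h3 : ((J i).card : ℝ) ≤ 2 * N / m := by
      refine ((hC m N i hm hmN (Finset.mem_range.1 hi)).2).trans ?_
      have h4 : (1 : ℝ) ≤ N / m := (one_le_div hmR).2 hmNR
      have h5 : (2 * N / m : ℝ) = N / m + N / m := by ring
      rw [h5]
      linarith
    have h4 : (lam * √(N : ℝ)) ^ 4 = lam ^ 4 * (N : ℝ) ^ 2 := by
      have h5 : √(N : ℝ) ^ 2 = N := Real.sq_sqrt hNR.le
      calc (lam * √(N : ℝ)) ^ 4 = lam ^ 4 * (√(N : ℝ) ^ 2) ^ 2 := by ring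
        _ = _ := by rw [h5]
    rw [h4, div_le_div_iff₀ (by positivity) (by positivity)]
    have h5 : ((J i).card : ℝ) ^ 2 ≤ (2 * N / m) ^ 2 := by
      have : (0 : ℝ) ≤ (J i).card := Nat.cast_nonneg _
      gcongr
    have h6 : (2 * N / m : ℝ) ^ 2 * m ^ 2 = 4 * (N : ℝ) ^ 2 := by
      field_simp
      ring
    have h7 : (0 : ℝ) < lam ^ 4 := by positivity
    calc 3 * ((J i).card : ℝ) ^ 2 * ((m : ℝ) ^ 2 * lam ^ 4)
        ≤ 3 * (2 * N / m : ℝ) ^ 2 * ((m : ℝ) ^ 2 * lam ^ 4) := by gcongr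
      _ = 3 * ((2 * N / m : ℝ) ^ 2 * m ^ 2) * lam ^ 4 := by ring
      _ = 12 * (lam ^ 4 * (N : ℝ) ^ 2) := by rw [h6]; ring
  refine (h1.trans (Finset.sum_le_sum h2)).trans (le_of_eq ?_)
  rw [Finset.sum_const, Finset.card_range, nsmul_eq_mul]
  field_simp

end Pool.Agent.Q215.SPN.TaskClose
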