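import Pool.Agent.Q215.SPN.Stmts

/-!
# SPN.TaskTie: no tie between a maximum and a later minimum
-/

set_option autoImplicit false

open Filter Topology Set MeasureTheory ProbabilityTheory TopologicalSpace
open scoped NNReal unitInterval

namespace Pool.Agent.Q215.SPN.TTie

open Pool.Agent.Q215.SPN

/-! ### suprema over dense sequences -/

theorem sup_dense {T : Type} [TopologicalSpace T] (u : ℕ → T) (hu : DenseRange u) (h : T → ℝ)
    (hc : Continuous h) (hb : BddAbove (range h)) : ⨆ x, h x = ⨆ n, h (u n) := by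
  haveI : Nonempty T := ⟨u 0⟩
  have hb' : BddAbove (range fun n => h (u n)) := by
    refine hb.mono ?_
    rintro _ ⟨n, rfl⟩
    exact ⟨u n, rfl⟩
  apply le_antisymm
  · apply ciSup_le
    intro x
    exact hu.induction_on x (isClosed_le hc continuous_const) (fun n => le_ciSup hb' n)
  · apply ciSup_le
    intro n
    exact le_ciSup hb (u n)

theorem inf_dense {T : Type} [TopologicalSpace T] (u : ℕ → T) (hu : DenseRange u) (h : T → ℝ)
    (hc : Continuous h) (hb : BddBelow (range h)) : ⨅ x, h x = ⨅ n, h (u n) := by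
  haveI : Nonempty T := ⟨u 0⟩
  have hb' : BddBelow (range fun n => h (u n)) := by
    refine hb.mono ?_
    rintro _ ⟨n, rfl⟩
    exact ⟨u n, rfl⟩
  apply le_antisymm
  · apply le_ciInf
    intro n
    exact ciInf_le hb (u n)
  · apply le_ciInf
    intro x
    exact hu.induction_on x (isClosed_le continuous_const hc) (fun n => ciInf_le hb' n)

theorem sup_form (w : I → ℝ) (hw : Continuous w) {a b : I} (u : ℕ → Icc a b) (hu : DenseRange u) (k : ℝ) :
    sSup (w '' Icc a b) = (⨆ n, (w (u n) - k)) + k := by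
  haveI : Nonempty (Icc a b) := ⟨u 0⟩
  haveI : CompactSpace (Icc a b) := isCompact_iff_compactSpace.mp isClosed_Icc.isCompact
  have hc : Continuous fun x : Icc a b => w x := hw.comp continuous_subtype_val
  have hb : BddAbove (range fun x : Icc a b => w x) := (isCompact_range hc).bddAbove
  have hc' : Continuous fun x : Icc a b => w x - k := hc.sub continuous_const
  have hb' : BddAbove (range fun x : Icc a b => w x - k) := (isCompact_range hc').bddAbove
  rw [sSup_image', ← sup_dense u hu (fun x : Icc a b => w x - k) hc' hb', ← ciSup_sub hb]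
  ring

theorem inf_form (w : I → ℝ) (hw : Continuous w) {a b : I} (u : ℕ → Icc a b) (hu : DenseRange u) (k : ℝ) :
    sInf (w '' Icc a b) = (⨅ n, (w (u n) - k)) + k := by
  haveI : Nonempty (Icc a b) := ⟨u 0⟩
  haveI : CompactSpace (Icc a b) := isCompact_iff_compactSpace.mp isClosed_Icc.isCompact
  have hc : Continuous fun x : Icc a b => w x := hw.comp continuous_subtype_val
  have hb : BddBelow (range fun x : Icc a b => w x) := (isCompact_range hc).bddBelow
  have hc' : Continuous fun x : Icc a b => w x - k := hc.sub continuous_const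
  have hb' : BddBelow (range fun x : Icc a b => w x - k) := (isCompact_range hc').bddBelow
  rw [sInf_image', ← inf_dense u hu (fun x : Icc a b => w x - k) hc' hb', ← ciInf_sub hb]
  ring

/-! ### independence -/

variable {Ω : Type} [MeasurableSpace Ω] {P : Measure Ω} {B : ℝ≥0 → Ω → ℝ}

theorem cov_formula (hB : IsPreBrownianReal B P) (c b p q : ℝ≥0) :
    cov[fun ω => B c ω - B b ω, fun ω => B p ω - B q ω; P] =
      (min c p : ℝ≥0) - (min c q : ℝ≥0) - ((min b p : ℝ≥0) - (min b q : ℝ≥0)) := by
  haveI := hB.isGaussianProcess.isProbabilityMeasure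
  rw [covariance_fun_sub_fun_sub]
  · simp_rw [hB.covariance_fun_eval]
    push_cast
    ring
  all_goals exact (hB.isGaussianProcess.hasGaussianLaw_eval _).memLp_two

theorem indep (hB : IsPreBrownianReal B P) (b c : ℝ≥0) (s t : ℕ → ℝ≥0) (hbc : b ≤ c)
    (hs : ∀ n, s n ≤ b) (ht : ∀ n, c ≤ t n) :
    IndepFun (fun ω (_ : Unit) => B c ω - B b ω)
      (fun ω (k : ℕ ⊕ ℕ) => Sum.elim (fun n => B (s n) ω - B b ω) (fun n => B (t n) ω - B c ω) k) P := by
  have mX t := hB.aemeasurable t
  have key : IndepFun (fun ω (i : Unit) => (fun (_ : Unit) ω => B c ω - B b ω) i ω)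
      (fun ω (k : ℕ ⊕ ℕ) => (fun (k : ℕ ⊕ ℕ) ω => B (Sum.elim s t k) ω -
        B (Sum.elim (fun _ => b) (fun _ => c) k) ω) k ω) P := by
    apply IsGaussianProcess.indepFun_of_covariance_eq_zero
    · apply hB.isGaussianProcess.of_isGaussianProcess
      rintro (_ | k)
      · exact ⟨{b, c},
          { toFun x := x ⟨c, by simp⟩ - x ⟨b, by simp⟩
            map_add' x y := by simp; abel
            map_smul' c x := by simp; ring }, by simp⟩
      · exact ⟨{Sum.elim (fun _ => b) (fun _ => c) k, Sum.elim s t k},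
          { toFun x := x ⟨Sum.elim s t k, by simp⟩ - x ⟨Sum.elim (fun _ => b) (fun _ => c) k, by simp⟩
            map_add' x y := by simp; abel
            map_smul' c x := by simp; ring }, by simp⟩
    · intro _
      exact (mX c).sub (mX b)
    · intro k
      exact (mX _).sub (mX _)
    · rintro _ (n | n)
      · show cov[fun ω => B c ω - B b ω, fun ω => B (s n) ω - B b ω; P] = 0
        rw [cov_formula hB, min_eq_right ((hs n).trans hbc), min_eq_right hbc, min_eq_right (hs n),
          min_self]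
        ring
      · show cov[fun ω => B c ω - B b ω, fun ω => B (t n) ω - B c ω; P] = 0
        rw [cov_formula hB, min_eq_left (ht n), min_self, min_eq_left (hbc.trans (ht n)),
          min_eq_left hbc]
        ring
  refine key.congr ?_ ?_
  · exact .rfl
  · refine Eventually.of_forall fun ω => ?_
    funext k
    rcases k with n | n <;> rfl

/-! ### the lemma -/

theorem zero_of_bound (μ : Measure Ω) [IsFiniteMeasure μ] (N : Set Ω) (K : ℝ) (hK : 0 < K)
    (h : ∀ δ > 0, μ N ≤ ENNReal.ofReal (2 * δ / K)) : μ N = 0 := by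
  by_contra hne
  have hfin : μ N ≠ ⊤ := measure_ne_top μ N
  have hpos : 0 < (μ N).toReal := ENNReal.toReal_pos hne hfin
  have h1 := h ((μ N).toReal * K / 4) (by positivity)
  have h2 : (μ N).toReal ≤ 2 * ((μ N).toReal * K / 4) / K := by
    have := ENNReal.toReal_mono ENNReal.ofReal_ne_top h1
    rwa [ENNReal.toReal_ofReal (by positivity)] at this
  have h3 : 2 * ((μ N).toReal * K / 4) / K = (μ N).toReal / 2 := by
    field_simp
    ring
  rw [h3] at h2
  linarith

theorem main (h : TaskGauss) : Pool.Agent.Q215.SPN.TaskTie := by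
  intro Ω _ P B hB a b c d hab hbc hcd
  have hpB : IsPreBrownianReal B P := hB.toIsPreBrownianReal
  haveI : IsProbabilityMeasure P := hpB.isGaussianProcess.isProbabilityMeasure
  let τ : I → ℝ≥0 := fun x => ⟨x, x.2.1⟩
  haveI : Nonempty (Icc a b) := ⟨⟨a, left_mem_Icc.2 hab.le⟩⟩
  haveI : Nonempty (Icc c d) := ⟨⟨c, left_mem_Icc.2 hcd.le⟩⟩
  let u : ℕ → Icc a b := denseSeq (Icc a b)
  let v : ℕ → Icc c d := denseSeq (Icc c d)
  have hu : DenseRange u := denseRange_denseSeq _
  have hv : DenseRange v := denseRange_denseSeq _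
  have hind := indep hpB (τ b) (τ c) (fun n => τ (u n)) (fun n => τ (v n)) hbc.le
    (fun n => (u n).2.2) (fun n => (v n).2.1)
  let G : Ω → ℝ := fun ω => B (τ c) ω - B (τ b) ω
  let Φ : (ℕ ⊕ ℕ → ℝ) → ℝ := fun f => (⨅ n, f (Sum.inr n)) - ⨆ n, f (Sum.inl n)
  have hΦ : Measurable Φ := by
    apply Measurable.sub
    · exact Measurable.iInf fun n => measurable_pi_apply _
    · exact Measurable.iSup fun n => measurable_pi_apply _
  let R : Ω → (ℕ ⊕ ℕ → ℝ) := fun ω k => Sum.elim (fun n => B (τ (u n)) ω - B (τ b) ω)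
    (fun n => B (τ (v n)) ω - B (τ c) ω) k
  let Z : Ω → ℝ := fun ω => Φ (R ω)
  have hRm : AEMeasurable R P := by
    apply aemeasurable_pi_lambda
    rintro (n | n)
    · exact (hpB.aemeasurable _).sub (hpB.aemeasurable _)
    · exact (hpB.aemeasurable _).sub (hpB.aemeasurable _)
  have hZm : AEMeasurable Z P := hΦ.comp_aemeasurable hRm
  have hGm : AEMeasurable G P := (hpB.aemeasurable _).sub (hpB.aemeasurable _)
  have hGZ : IndepFun G Z P := hind.comp (measurable_pi_apply ()) hΦ
  have hlaw : P.map G = gaussianReal 0 (nndist (τ c).1 (τ b).1) := (hpB.hasLaw_sub (τ c) (τ b)).map_eq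
  have hvpos : 0 < nndist (τ c).1 (τ b).1 := by
    rw [← NNReal.coe_pos, coe_nndist, dist_pos]
    exact fun e => hbc.ne' (Subtype.ext e)
  have hbound := h P G Z _ hvpos hGm hZm hlaw hGZ
  have hK : 0 < √(2 * Real.pi * (nndist (τ c).1 (τ b).1 : ℝ≥0)) := by
    have : (0 : ℝ) < (nndist (τ c).1 (τ b).1 : ℝ≥0) := by exact_mod_cast hvpos
    positivity
  have hnull : P {ω | G ω + Z ω = 0} = 0 := by
    refine zero_of_bound P _ _ hK fun δ hδ => ?_
    refine (measure_mono ?_).trans (hbound δ hδ)
    intro ω hω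
    have e : G ω + Z ω = 0 := hω
    show |G ω + Z ω| < δ
    rw [e, abs_zero]
    exact hδ
  have hae : ∀ᵐ ω ∂P, G ω + Z ω ≠ 0 := by
    rw [ae_iff]
    simpa using hnull
  filter_upwards [hae, hB.cont] with ω h1 h2 h3
  apply h1
  have hr : ∀ x : I, rst (fun t => B t ω) x = B (τ x) ω := by
    intro x
    unfold rst
    rw [dif_pos h2]
    rfl
  have e1 := sup_form (rst (fun t => B t ω)) (rst (fun t => B t ω)).continuous u hu (B (τ b) ω)
  have e2 := inf_form (rst (fun t => B t ω)) (rst (fun t => B t ω)).continuous v hv (B (τ c) ω)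
  rw [h3, e2] at e1
  simp only [hr] at e1
  show B (τ c) ω - B (τ b) ω + ((⨅ n, (B (τ (v n)) ω - B (τ c) ω)) - ⨆ n, (B (τ (u n)) ω - B (τ b) ω)) = 0
  linarith

end Pool.Agent.Q215.SPN.TTie
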